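import Mathlib

/-!
Buildings of `n`-fold products of rank one groups and their quotients.
-/

namespace Pool.Agent.R647.Chev

/-- Conjugate subgroup. -/
def cnj {G : Type*} [Group G] (g : G) (H : Subgroup G) : Subgroup G :=
  H.map (MulAut.conj g).toMonoidHom

section

variable {G : Type*} [Group G]

/-- Parabolic subgroups of `Gⁿ`, when `B` is the set of Borel subgroups of the rank one
group `G`: products of factors, each of which is `G` or a Borel subgroup. -/
def IsPar (B : Set (Subgroup G)) (n : ℕ) (Q : Subgroup (Fin n → G)) : Prop :=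
  ∃ P : Fin n → Subgroup G, (∀ i, P i = ⊤ ∨ P i ∈ B) ∧ Q = Subgroup.pi Set.univ P

/-- Simplices of the building: proper parabolic subgroups. -/
def Simp (B : Set (Subgroup G)) (n : ℕ) : Type _ :=
  {Q : Subgroup (Fin n → G) // IsPar B n Q ∧ Q ≠ ⊤}

/-- Two simplices are equivalent when an element of `Γⁿ` conjugates one to the other. -/
def rel (Γ : Subgroup G) (B : Set (Subgroup G)) (n : ℕ) (Q Q' : Simp B n) : Prop :=
  ∃ γ : Fin n → G, (∀ i, γ i ∈ Γ) ∧ cnj γ Q.1 = Q'.1

lemma cnj_one (H : Subgroup G) : cnj 1 H = H := by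
  ext x; simp [cnj]

lemma cnj_mul (g h : G) (H : Subgroup G) : cnj (g * h) H = cnj g (cnj h H) := by
  simp only [cnj, Subgroup.map_map]
  congr 1
  ext x
  simp

lemma cnj_inv_cnj (g : G) (H : Subgroup G) : cnj g⁻¹ (cnj g H) = H := by
  rw [← cnj_mul, inv_mul_cancel, cnj_one]

lemma cnj_top (g : G) : cnj g (⊤ : Subgroup G) = ⊤ := by
  rw [cnj, ← MonoidHom.range_eq_map, MonoidHom.range_eq_top]
  exact (MulAut.conj g).surjective

/-- The orbit equivalence relation. -/
def orbSetoid (Γ : Subgroup G) (B : Set (Subgroup G)) (n : ℕ) : Setoid (Simp B n) where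
  r := rel Γ B n
  iseqv := by
    refine ⟨fun Q => ⟨1, fun i => Γ.one_mem, cnj_one _⟩, ?_, ?_⟩
    · rintro Q Q' ⟨γ, h1, h2⟩
      exact ⟨γ⁻¹, fun i => Γ.inv_mem (h1 i), by rw [← h2, cnj_inv_cnj]⟩
    · rintro Q Q' Q'' ⟨γ, h1, h2⟩ ⟨δ, h3, h4⟩
      exact ⟨δ * γ, fun i => Γ.mul_mem (h3 i) (h1 i), by rw [cnj_mul, h2, h4]⟩

/-- The cells of the quotient of the building by `Γⁿ`. -/
def Cells (Γ : Subgroup G) (B : Set (Subgroup G)) (n : ℕ) : Type _ :=
  Quotient (orbSetoid Γ B n)

/-- The face relation of the quotient: `c` is a face of `c'` when they are the images of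
simplices `Q`, `Q'` with `Q` a face of `Q'` (faces correspond to larger parabolic subgroups). -/
def face (Γ : Subgroup G) (B : Set (Subgroup G)) (n : ℕ) (c c' : Cells Γ B n) : Prop :=
  ∃ Q Q' : Simp B n, Quotient.mk (orbSetoid Γ B n) Q = c ∧
    Quotient.mk (orbSetoid Γ B n) Q' = c' ∧ Q'.1 ≤ Q.1

instance (Γ : Subgroup G) (B : Set (Subgroup G)) (n : ℕ) : LE (Cells Γ B n) :=
  ⟨face Γ B n⟩

/-- The `n`-fold join of the discrete set `Ω`. -/
def JoinC (Ω : Type*) (n : ℕ) : Type _ := {f : Fin n → Option Ω // f ≠ fun _ => none}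

instance (Ω : Type*) (n : ℕ) : LE (JoinC Ω n) :=
  ⟨fun f f' => ∀ i ω, f.1 i = some ω → f'.1 i = some ω⟩

lemma proj_pi {n : ℕ} (P : Fin n → Subgroup G) (i : Fin n) :
    (Subgroup.pi Set.univ P).map (Pi.evalMonoidHom (fun _ => G) i) = P i := by
  ext x
  simp only [Subgroup.mem_map, Pi.evalMonoidHom_apply, Subgroup.mem_pi]
  constructor
  · rintro ⟨y, hy, rfl⟩
    exact hy i trivial
  · intro hx
    refine ⟨Function.update 1 i x, fun j _ => ?_, by simp⟩
    by_cases h : j = i
    · subst h; simpa using hx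
    · simp [h]

lemma proj_cnj {n : ℕ} (γ : Fin n → G) (Q : Subgroup (Fin n → G)) (i : Fin n) :
    (cnj γ Q).map (Pi.evalMonoidHom (fun _ => G) i) =
      cnj (γ i) (Q.map (Pi.evalMonoidHom (fun _ => G) i)) := by
  simp only [cnj, Subgroup.map_map]
  congr 1

lemma cnj_pi {n : ℕ} (γ : Fin n → G) (P : Fin n → Subgroup G) :
    cnj γ (Subgroup.pi Set.univ P) = Subgroup.pi Set.univ fun i => cnj (γ i) (P i) := by
  ext x
  simp only [cnj, Subgroup.mem_map, Subgroup.mem_pi]
  constructor
  · rintro ⟨y, hy, rfl⟩ i hi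
    exact ⟨y i, hy i hi, rfl⟩
  · intro h
    choose y hy hyx using fun i => h i trivial
    exact ⟨y, fun i _ => hy i, funext hyx⟩

variable {Γ : Subgroup G} {B : Set (Subgroup G)} {Ω : Type*} (k : Subgroup G → Ω)

open Classical in
/-- The type and class data of a parabolic subgroup. -/
noncomputable def dat {n : ℕ} (Q : Subgroup (Fin n → G)) (i : Fin n) : Option Ω :=
  if Q.map (Pi.evalMonoidHom (fun _ => G) i) = ⊤ then none
  else some (k (Q.map (Pi.evalMonoidHom (fun _ => G) i)))

open Classical in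
lemma dat_pi {n : ℕ} (P : Fin n → Subgroup G) (i : Fin n) :
    dat k (Subgroup.pi Set.univ P) i = if P i = ⊤ then none else some (k (P i)) := by
  rw [dat, proj_pi]

lemma pi_eq_top {n : ℕ} {P : Fin n → Subgroup G} (h : ∀ i, P i = ⊤) :
    Subgroup.pi Set.univ P = ⊤ := by
  rw [eq_top_iff]
  intro x _
  rw [Subgroup.mem_pi]
  intro i _
  rw [h i]; trivial

lemma dat_ne {n : ℕ} (Q : Simp B n) : dat k Q.1 ≠ fun _ => none := by
  obtain ⟨P, hP, hQ⟩ := Q.2.1
  intro h
  apply Q.2.2
  rw [hQ]
  apply pi_eq_top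
  intro i
  have := congrFun h i
  rw [hQ, dat_pi] at this
  by_contra h0
  rw [if_neg h0] at this
  exact absurd this (by simp)

variable (hk : ∀ b ∈ B, ∀ b' ∈ B, (∃ γ ∈ Γ, cnj γ b = b') ↔ k b = k b')
  (hs : ∀ ω, ∃ b ∈ B, k b = ω) (htop : ⊤ ∉ B) (hanti : ∀ b ∈ B, ∀ b' ∈ B, b' ≤ b → b' = b)

include hk htop in
lemma rel_iff {n : ℕ} (Q Q' : Simp B n) : rel Γ B n Q Q' ↔ dat k Q.1 = dat k Q'.1 := by
  obtain ⟨P, hP, hQ⟩ := Q.2.1
  obtain ⟨P', hP', hQ'⟩ := Q'.2.1
  constructor
  · rintro ⟨γ, h1, h2⟩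
    funext i
    have h3 : cnj (γ i) (P i) = P' i := by
      have := congrArg (fun X => X.map (Pi.evalMonoidHom (fun _ => G) i)) h2
      simp only [proj_cnj] at this
      rwa [hQ, hQ', proj_pi, proj_pi] at this
    rw [hQ, hQ', dat_pi, dat_pi]
    rcases hP i with h | h
    · rw [if_pos h]
      rw [h, cnj_top] at h3
      rw [if_pos h3.symm]
    · have h4 : P i ≠ ⊤ := fun h0 => htop (h0 ▸ h)
      have h5 : P' i ≠ ⊤ := by
        intro h0
        apply h4
        rw [← cnj_inv_cnj (γ i) (P i), h3, h0, cnj_top]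
      rw [if_neg h4, if_neg h5]
      have h6 : P' i ∈ B := (hP' i).resolve_left h5
      rw [(hk _ h _ h6).1 ⟨γ i, h1 i, h3⟩]
  · intro h
    have : ∀ i, ∃ γ ∈ Γ, cnj γ (P i) = P' i := by
      intro i
      have h1 := congrFun h i
      rw [hQ, hQ', dat_pi, dat_pi] at h1
      by_cases h2 : P i = ⊤
      · rw [if_pos h2] at h1
        have h3 : P' i = ⊤ := by
          by_contra h0
          rw [if_neg h0] at h1
          exact absurd h1 (by simp)
        exact ⟨1, Γ.one_mem, by rw [h2, h3, cnj_top]⟩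
      · rw [if_neg h2] at h1
        have h3 : P' i ≠ ⊤ := by
          intro h0
          rw [if_pos h0] at h1
          exact absurd h1 (by simp)
        rw [if_neg h3] at h1
        exact (hk _ ((hP i).resolve_left h2) _ ((hP' i).resolve_left h3)).2
          (Option.some_injective _ h1)
    choose γ h1 h2 using this
    refine ⟨γ, h1, ?_⟩
    rw [hQ, hQ', cnj_pi]
    congr 1
    funext i
    exact h2 i

/-- The map from cells of the quotient to simplices of the join. -/
noncomputable def toJoin (hk : ∀ b ∈ B, ∀ b' ∈ B, (∃ γ ∈ Γ, cnj γ b = b') ↔ k b = k b')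
    (htop : ⊤ ∉ B) (n : ℕ) (c : Cells Γ B n) : JoinC Ω n :=
  Quotient.lift (s := orbSetoid Γ B n) (fun Q => (⟨dat k Q.1, dat_ne k Q⟩ : JoinC Ω n))
    (fun Q Q' h => Subtype.ext ((rel_iff k hk htop Q Q').1 h)) c

include hk hs htop hanti in
theorem cells_join (n : ℕ) : Nonempty (Cells Γ B n ≃o JoinC Ω n) := by
  have hinj : Function.Injective (toJoin k hk htop n) := by
    intro c c'
    induction c using Quotient.inductionOn with | _ Q =>
    induction c' using Quotient.inductionOn with | _ Q' =>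
    intro h
    exact Quotient.sound (s := orbSetoid Γ B n)
      ((rel_iff k hk htop Q Q').2 (congrArg Subtype.val h))
  have hsurj : Function.Surjective (toJoin k hk htop n) := by
    intro f
    choose b hb hkb using hs
    let P : Fin n → Subgroup G := fun i => (f.1 i).elim ⊤ b
    have hP : ∀ i, P i = ⊤ ∨ P i ∈ B := by
      intro i
      cases h : f.1 i with
      | none => left; simp [P, h]
      | some ω => right; simp [P, h, hb]
    have hdat : dat k (Subgroup.pi Set.univ P) = f.1 := by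
      funext i
      rw [dat_pi]
      cases h : f.1 i with
      | none => simp [P, h]
      | some ω =>
        have h1 : P i = b ω := by simp [P, h]
        have h2 : P i ≠ ⊤ := by
          intro h0
          exact htop (h0 ▸ h1 ▸ hb ω)
        rw [if_neg h2, h1, hkb]
    refine ⟨Quotient.mk (orbSetoid Γ B n) ⟨Subgroup.pi Set.univ P, ⟨P, hP, rfl⟩, ?_⟩, ?_⟩
    · intro h0
      apply f.2
      rw [← hdat, h0, ← pi_eq_top (P := fun _ : Fin n => (⊤ : Subgroup G)) fun _ => rfl]
      funext i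
      rw [dat_pi, if_pos rfl]
    · exact Subtype.ext hdat
  refine ⟨⟨Equiv.ofBijective _ ⟨hinj, hsurj⟩, ?_⟩⟩
  intro c c'
  change toJoin k hk htop n c ≤ toJoin k hk htop n c' ↔ c ≤ c'
  constructor
  · induction c using Quotient.inductionOn with | _ Q =>
    induction c' using Quotient.inductionOn with | _ Q' =>
    intro h
    obtain ⟨P', hP', hQ'⟩ := Q'.2.1
    have hle : ∀ i ω, dat k Q.1 i = some ω → dat k Q'.1 i = some ω := h
    classical
    let P : Fin n → Subgroup G := fun i => if dat k Q.1 i = none then ⊤ else P' i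
    have hP : ∀ i, P i = ⊤ ∨ P i ∈ B := by
      intro i
      by_cases h1 : dat k Q.1 i = none
      · left; simp [P, h1]
      · have : P i = P' i := if_neg h1
        rw [this]; exact hP' i
    have hdat : dat k (Subgroup.pi Set.univ P) = dat k Q.1 := by
      funext i
      rw [dat_pi]
      cases h1 : dat k Q.1 i with
      | none => simp [P, h1]
      | some ω =>
        have h2 : P i = P' i := if_neg (by rw [h1]; simp)
        have h3 := hle i ω h1
        rw [hQ', dat_pi] at h3
        rw [h2, h3]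
    have hne : Subgroup.pi Set.univ P ≠ ⊤ := by
      intro h0
      apply dat_ne k Q
      rw [← hdat, h0, ← pi_eq_top (P := fun _ : Fin n => (⊤ : Subgroup G)) fun _ => rfl]
      funext i
      rw [dat_pi, if_pos rfl]
    refine ⟨⟨Subgroup.pi Set.univ P, ⟨P, hP, rfl⟩, hne⟩, Q', ?_, rfl, ?_⟩
    · exact Quotient.sound (s := orbSetoid Γ B n) ((rel_iff k hk htop _ _).2 hdat)
    · rw [hQ']
      intro x hx
      rw [Subgroup.mem_pi] at hx ⊢
      intro i hi
      by_cases h1 : dat k Q.1 i = none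
      · have : P i = ⊤ := if_pos h1
        rw [this]; trivial
      · have : P i = P' i := if_neg h1
        rw [this]; exact hx i hi
  · rintro ⟨Q, Q', rfl, rfl, hle⟩
    change ∀ i ω, dat k Q.1 i = some ω → dat k Q'.1 i = some ω
    obtain ⟨P, hP, hQ⟩ := Q.2.1
    obtain ⟨P', hP', hQ'⟩ := Q'.2.1
    have h1 : ∀ i, P' i ≤ P i := by
      intro i
      rw [← proj_pi P i, ← proj_pi P' i, ← hQ, ← hQ']
      exact Subgroup.map_mono hle
    intro i ω
    rw [hQ, hQ', dat_pi, dat_pi]
    by_cases h2 : P i = ⊤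
    · rw [if_pos h2]
      intro h; exact absurd h (by simp)
    · have h3 : P i ∈ B := (hP i).resolve_left h2
      have h4 : P' i ≠ ⊤ := by
        intro h0
        have := h1 i
        rw [h0, top_le_iff] at this
        exact h2 this
      have h5 : P' i ∈ B := (hP' i).resolve_left h4
      rw [hanti _ h3 _ h5 (h1 i)]
      exact id

end

/-- Number of simplices of a join. -/
lemma card_join (Ω : Type*) [Finite Ω] (n : ℕ) :
    Nat.card (JoinC Ω n) = (Nat.card Ω + 1) ^ n - 1 := by
  classical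
  have := Fintype.ofFinite Ω
  change Nat.card {f : Fin n → Option Ω // f ≠ fun _ => none} = _
  rw [Nat.card_eq_fintype_card, Nat.card_eq_fintype_card]
  rw [Fintype.card_subtype_compl, Fintype.card_fun, Fintype.card_option, Fintype.card_fin]
  simp

lemma map_ne_none {Ω Ω' : Type*} (e : Ω ≃ Ω') {n : ℕ} (f : JoinC Ω n) :
    (fun i => (f.1 i).map e) ≠ fun _ => none := by
  intro h
  apply f.2
  funext i
  have := congrFun h i
  simpa using this

lemma join_congr {Ω Ω' : Type*} (e : Ω ≃ Ω') (n : ℕ) : Nonempty (JoinC Ω n ≃o JoinC Ω' n) := by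
  refine ⟨⟨⟨fun f => ⟨fun i => (f.1 i).map e, map_ne_none e f⟩,
    fun f => ⟨fun i => (f.1 i).map e.symm, map_ne_none e.symm f⟩, ?_, ?_⟩, ?_⟩⟩
  · intro f
    apply Subtype.ext
    funext i
    simp
  · intro f
    apply Subtype.ext
    funext i
    simp
  · intro f f'
    change (∀ i ω, (f.1 i).map e = some ω → (f'.1 i).map e = some ω) ↔
      ∀ i ω, f.1 i = some ω → f'.1 i = some ω
    constructor
    · intro h i ω h1
      have := h i (e ω) (by rw [h1]; rfl)
      rw [Option.map_eq_some_iff] at this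
      obtain ⟨a, ha, hae⟩ := this
      rw [ha, e.injective hae]
    · intro h i ω h1
      rw [Option.map_eq_some_iff] at h1 ⊢
      obtain ⟨a, ha, hae⟩ := h1
      exact ⟨a, h i a ha, hae⟩

end Pool.Agent.R647.Chev
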