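import Pool.Agent.R647.Chev.Move
import Pool.Agent.R647.Chev.Complex

/-!
The groups `PGL₂` and `SL₂` over a Dedekind domain and its fraction field, their Borel
subgroups, and the classification of the Borel subgroups up to integral conjugation.
-/

namespace Pool.Agent.R647.Chev

open scoped nonZeroDivisors
open FractionalIdeal Matrix

/-- The group of `A`-points of the group scheme `PGL₂ = Aut(M₂)`. -/
abbrev PGL2 (A : Type*) [CommRing A] : Type _ :=
  Matrix (Fin 2) (Fin 2) A ≃ₐ[A] Matrix (Fin 2) (Fin 2) A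

/-- The image of `PGL₂(R)` in `PGL₂(K)`. -/
def intPGL (R K : Type*) [CommRing R] [Field K] [Algebra R K] : Subgroup (PGL2 K) where
  carrier := {ψ | ∃ φ : PGL2 R, ∀ M : Matrix (Fin 2) (Fin 2) R,
    ψ (M.map (algebraMap R K)) = (φ M).map (algebraMap R K)}
  mul_mem' := by
    rintro ψ ψ' ⟨φ, h⟩ ⟨φ', h'⟩
    exact ⟨φ * φ', fun M => by rw [AlgEquiv.mul_apply, h', h]; rfl⟩
  one_mem' := ⟨1, fun M => rfl⟩
  inv_mem' := by
    rintro ψ ⟨φ, h⟩
    refine ⟨φ⁻¹, fun M => ?_⟩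
    have h1 : ψ ((φ⁻¹ M).map (algebraMap R K)) = M.map (algebraMap R K) := by
      rw [h]
      congr 1
      exact φ.apply_symm_apply M
    rw [← h1]
    exact ψ.symm_apply_apply _

/-- The conjugation `GL₂(K) → PGL₂(K)`. -/
def cj (K : Type*) [Field K] : GL (Fin 2) K →* PGL2 K where
  toFun g := MulSemiringAction.toAlgEquiv K (Matrix (Fin 2) (Fin 2) K) (ConjAct.toConjAct g)
  map_one' := by
    ext M
    simp
  map_mul' g h := by
    ext M : 1
    simp [mul_smul]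

lemma cj_apply {K : Type*} [Field K] (g : GL (Fin 2) K) (M : Matrix (Fin 2) (Fin 2) K) :
    cj K g M = g.1 * M * (g⁻¹).1 := by
  simp [cj, ConjAct.units_smul_def]

/-- The stabiliser in `GL₂(K)` of the line spanned by `v`. -/
def stabL {K : Type*} [Field K] (v : Fin 2 → K) : Subgroup (GL (Fin 2) K) where
  carrier := {g | ∃ c : K, c ≠ 0 ∧ g.1 *ᵥ v = c • v}
  mul_mem' := by
    rintro g h ⟨c, hc, h1⟩ ⟨d, hd, h2⟩
    refine ⟨d * c, mul_ne_zero hd hc, ?_⟩
    rw [Units.val_mul, ← mulVec_mulVec, h2, mulVec_smul, h1, smul_smul]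
  one_mem' := ⟨1, one_ne_zero, by simp⟩
  inv_mem' := by
    rintro g ⟨c, hc, h1⟩
    refine ⟨c⁻¹, inv_ne_zero hc, ?_⟩
    have h2 : (g⁻¹).1 *ᵥ (g.1 *ᵥ v) = v := by
      rw [mulVec_mulVec, ← Units.val_mul, inv_mul_cancel, Units.val_one, one_mulVec]
    rw [h1, mulVec_smul] at h2
    rw [← h2, smul_smul, inv_mul_cancel₀ hc, one_smul, h2]

/-- Borel subgroups of `PGL₂(K)`: images of stabilisers of lines. -/
def borP {K : Type*} [Field K] (v : Fin 2 → K) : Subgroup (PGL2 K) := (stabL v).map (cj K)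

/-- Borel subgroups of `SL₂(K)`: stabilisers of lines. -/
def borS {K : Type*} [Field K] (v : Fin 2 → K) : Subgroup (SpecialLinearGroup (Fin 2) K) :=
  (stabL v).comap SpecialLinearGroup.toGL

/-- The set of Borel subgroups of `PGL₂(K)`. -/
def BorP (K : Type*) [Field K] : Set (Subgroup (PGL2 K)) := {B | ∃ v : Fin 2 → K, v ≠ 0 ∧ B = borP v}

/-- The set of Borel subgroups of `SL₂(K)`. -/
def BorS (K : Type*) [Field K] : Set (Subgroup (SpecialLinearGroup (Fin 2) K)) :=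
  {B | ∃ v : Fin 2 → K, v ≠ 0 ∧ B = borS v}

/-- The image of `SL₂(R)` in `SL₂(K)`. -/
def intSL (R K : Type*) [CommRing R] [Field K] [Algebra R K] :
    Subgroup (SpecialLinearGroup (Fin 2) K) :=
  (SpecialLinearGroup.map (n := Fin 2) (algebraMap R K)).range

section gen

variable {K : Type*} [Field K]

lemma cj_surj : Function.Surjective (cj K) := by
  intro ψ
  obtain ⟨T, hT⟩ := AlgEquiv.eq_linearEquivConjAlgEquiv
    ((toLinAlgEquiv' (R := K) (n := Fin 2)).symm.trans (ψ.trans toLinAlgEquiv'))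
  let g : GL (Fin 2) K := (Matrix.GeneralLinearGroup.toLin (n := Fin 2) (R := K)).symm
    (LinearMap.GeneralLinearGroup.ofLinearEquiv T)
  refine ⟨g, ?_⟩
  ext M : 1
  rw [cj_apply]
  apply (toLinAlgEquiv' (R := K) (n := Fin 2)).injective
  have h1 := congrArg (fun f => f (toLinAlgEquiv' M)) hT
  simp only [AlgEquiv.trans_apply, AlgEquiv.symm_apply_apply] at h1
  rw [h1, map_mul, map_mul]
  have h2 : toLinAlgEquiv' g.1 = (T : (Fin 2 → K) →ₗ[K] (Fin 2 → K)) := by
    have := (Matrix.GeneralLinearGroup.toLin (n := Fin 2) (R := K)).apply_symm_apply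
      (LinearMap.GeneralLinearGroup.ofLinearEquiv T)
    exact congrArg Units.val this
  have h3 : toLinAlgEquiv' (g⁻¹).1 = (T.symm : (Fin 2 → K) →ₗ[K] (Fin 2 → K)) := by
    have := (Matrix.GeneralLinearGroup.toLin (n := Fin 2) (R := K)).apply_symm_apply
      (LinearMap.GeneralLinearGroup.ofLinearEquiv T)
    have h4 := congrArg (fun x => (x⁻¹).1) this
    simp only [← map_inv] at h4
    exact h4
  rw [h2, h3]
  ext x
  simp [LinearEquiv.conjAlgEquiv_apply]

lemma cj_eq_one {g : GL (Fin 2) K} (h : cj K g = 1) : ∃ c : K, c ≠ 0 ∧ ∀ v, g.1 *ᵥ v = c • v := by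
  have h1 : ∀ M : Matrix (Fin 2) (Fin 2) K, g.1 * M = M * g.1 := by
    intro M
    have h2 := congrArg (fun f : PGL2 K => f M) h
    simp only [cj_apply] at h2
    have h3 : g.1 * M * (g⁻¹).1 * g.1 = M * g.1 := by rw [h2]; rfl
    rwa [Matrix.mul_assoc, ← Units.val_mul, inv_mul_cancel, Units.val_one, Matrix.mul_one] at h3
  have e1 := congrFun (congrFun (h1 (Matrix.single 0 1 1)) 0) 1
  have e2 := congrFun (congrFun (h1 (Matrix.single 0 1 1)) 0) 0
  have e3 := congrFun (congrFun (h1 (Matrix.single 1 0 1)) 0) 0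
  simp [Matrix.mul_apply, Matrix.single_apply] at e1 e2 e3
  have hg : g.1 = g.1 0 0 • (1 : Matrix (Fin 2) (Fin 2) K) := by
    ext i j
    fin_cases i <;> fin_cases j <;> simp [e1, ← e2, e3]
  refine ⟨g.1 0 0, ?_, fun v => ?_⟩
  · intro h0
    rw [h0, zero_smul] at hg
    exact g.ne_zero hg
  · conv_lhs => rw [hg]
    rw [smul_mulVec, one_mulVec]

/-- two by two area form -/
def ar (v w : Fin 2 → K) : K := v 0 * w 1 - v 1 * w 0

lemma ar_eq_zero {v w : Fin 2 → K} (hv : v ≠ 0) (h : ar v w = 0) : ∃ c : K, w = c • v := by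
  by_cases h0 : v 0 = 0
  · have h1 : v 1 ≠ 0 := by
      intro h1
      apply hv
      ext i; fin_cases i
      · exact h0
      · exact h1
    refine ⟨w 1 / v 1, ?_⟩
    have h2 : w 0 = 0 := by
      simp only [ar, h0, zero_mul, zero_sub, neg_eq_zero, mul_eq_zero] at h
      exact h.resolve_left h1
    ext i; fin_cases i
    · simp [h2, h0]
    · simp [div_mul_cancel₀ _ h1]
  · refine ⟨w 0 / v 0, ?_⟩
    have h2 : v 0 * w 1 = v 1 * w 0 := by
      simpa [ar, sub_eq_zero] using h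
    ext i; fin_cases i
    · simp [div_mul_cancel₀ _ h0]
    · simp
      field_simp
      linear_combination h2

lemma line_unique {v w : Fin 2 → K} (hv : v ≠ 0) (hw : w ≠ 0) (h : borS v ≤ borS w) :
    ∃ c : K, c ≠ 0 ∧ w = c • v := by
  have h1 : ar v w = 0 := by
    by_contra hne
    let g : SpecialLinearGroup (Fin 2) K :=
      ⟨!![1 - v 0 * v 1, v 0 * v 0; - (v 1 * v 1), 1 + v 1 * v 0], by
        rw [det_fin_two_of]; ring⟩
    have hgm : (SpecialLinearGroup.toGL g).1 =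
      !![1 - v 0 * v 1, v 0 * v 0; - (v 1 * v 1), 1 + v 1 * v 0] := rfl
    have hg : g ∈ borS v := by
      refine ⟨1, one_ne_zero, ?_⟩
      rw [hgm]
      ext i
      fin_cases i
      · simp [mulVec, dotProduct, Fin.sum_univ_two]; ring
      · simp [mulVec, dotProduct, Fin.sum_univ_two]; ring
    obtain ⟨c, hc, h2⟩ := h hg
    rw [hgm] at h2
    have h3 := congrFun h2 0
    have h4 := congrFun h2 1
    simp [mulVec, dotProduct, Fin.sum_univ_two] at h3 h4
    have h5 : ar v w * ar v w = 0 := by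
      have : ar v w * (ar v w) = w 1 * (((1 - v 0 * v 1) * w 0 + v 0 * v 0 * w 1)) -
        w 0 * (-(v 1 * v 1 * w 0) + (1 + v 1 * v 0) * w 1) := by
        simp only [ar]; ring
      rw [this, h3, h4]; ring
    exact hne (mul_self_eq_zero.1 h5)
  obtain ⟨c, hc⟩ := ar_eq_zero hv h1
  refine ⟨c, ?_, hc⟩
  rintro rfl
  exact hw (by rw [hc, zero_smul])

lemma stabL_smul {c : K} (hc : c ≠ 0) (v : Fin 2 → K) : stabL (c • v) = stabL v := by
  ext g
  constructor
  · rintro ⟨d, hd, h⟩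
    refine ⟨d, hd, ?_⟩
    have h2 := congrArg (fun x => c⁻¹ • x) h
    simpa [mulVec_smul, smul_smul, mul_comm d c, inv_mul_cancel₀ hc, ← mul_assoc] using h2
  · rintro ⟨d, hd, h⟩
    refine ⟨d, hd, ?_⟩
    rw [mulVec_smul, h, smul_comm]

lemma borP_eq_iff {v w : Fin 2 → K} (hv : v ≠ 0) (hw : w ≠ 0) :
    borP v = borP w ↔ ∃ c : K, c ≠ 0 ∧ w = c • v := by
  constructor
  · intro h
    have h1 : stabL v ≤ stabL w := by
      intro g hg
      have h2 : cj K g ∈ borP w := h ▸ ⟨g, hg, rfl⟩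
      obtain ⟨g', hg', h3⟩ := h2
      have h4 : cj K (g'⁻¹ * g) = 1 := by rw [map_mul, map_inv, h3, inv_mul_cancel]
      obtain ⟨c, hc, h5⟩ := cj_eq_one h4
      have h6 : g'⁻¹ * g ∈ stabL w := ⟨c, hc, h5 w⟩
      have := (stabL w).mul_mem hg' h6
      rwa [mul_inv_cancel_left] at this
    exact line_unique hv hw (fun g hg => h1 hg)
  · rintro ⟨c, hc, rfl⟩
    rw [borP, borP, stabL_smul hc]

lemma borS_eq_iff {v w : Fin 2 → K} (hv : v ≠ 0) (hw : w ≠ 0) :
    borS v = borS w ↔ ∃ c : K, c ≠ 0 ∧ w = c • v := by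
  constructor
  · intro h
    exact line_unique hv hw h.le
  · rintro ⟨c, hc, rfl⟩
    rw [borS, borS, stabL_smul hc]

lemma mulVec_ne {g : GL (Fin 2) K} {v : Fin 2 → K} (hv : v ≠ 0) : g.1 *ᵥ v ≠ 0 := by
  intro h
  apply hv
  have h2 : (g⁻¹).1 *ᵥ (g.1 *ᵥ v) = v := by
    rw [mulVec_mulVec, ← Units.val_mul, inv_mul_cancel, Units.val_one, one_mulVec]
  rw [← h2, h, mulVec_zero]

lemma stabL_conj (g : GL (Fin 2) K) (v : Fin 2 → K) :
    cnj g (stabL v) = stabL (g.1 *ᵥ v) := by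
  ext h
  simp only [cnj, Subgroup.mem_map]
  constructor
  · rintro ⟨x, ⟨c, hc, hx⟩, rfl⟩
    refine ⟨c, hc, ?_⟩
    change (g * x * g⁻¹).1 *ᵥ (g.1 *ᵥ v) = _
    rw [Units.val_mul, ← mulVec_mulVec, mulVec_mulVec v (g⁻¹).1, ← Units.val_mul, inv_mul_cancel,
      Units.val_one, one_mulVec, Units.val_mul, ← mulVec_mulVec, hx, mulVec_smul]
  · rintro ⟨c, hc, hx⟩
    refine ⟨g⁻¹ * h * g, ⟨c, hc, ?_⟩, ?_⟩
    · rw [Units.val_mul, ← mulVec_mulVec, Units.val_mul, ← mulVec_mulVec, hx, mulVec_smul,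
        mulVec_mulVec, ← Units.val_mul, inv_mul_cancel, Units.val_one, one_mulVec]
    · change g * (g⁻¹ * h * g) * g⁻¹ = h
      group

lemma borP_conj (g : GL (Fin 2) K) (v : Fin 2 → K) :
    cnj (cj K g) (borP v) = borP (g.1 *ᵥ v) := by
  have h0 : borP (g.1 *ᵥ v) = (cnj g (stabL v)).map (cj K) := by rw [stabL_conj]; rfl
  rw [h0]
  ext x
  simp only [cnj, borP, Subgroup.mem_map]
  constructor
  · rintro ⟨y, ⟨h, hh, rfl⟩, rfl⟩
    exact ⟨_, ⟨h, hh, rfl⟩, by simp⟩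
  · rintro ⟨y, ⟨h, hh, rfl⟩, rfl⟩
    exact ⟨_, ⟨h, hh, rfl⟩, by simp⟩

lemma borS_conj (g : SpecialLinearGroup (Fin 2) K) (v : Fin 2 → K) :
    cnj g (borS v) = borS (g.1 *ᵥ v) := by
  have h0 := stabL_conj (SpecialLinearGroup.toGL g) v
  ext x
  have h1 : x ∈ borS (g.1 *ᵥ v) ↔ SpecialLinearGroup.toGL x ∈ cnj (SpecialLinearGroup.toGL g) (stabL v) := by
    rw [h0]; rfl
  rw [h1]
  simp only [cnj, borS, Subgroup.mem_map]
  constructor
  · rintro ⟨y, hy, rfl⟩
    exact ⟨_, hy, by simp⟩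
  · rintro ⟨y, hy, hyx⟩
    refine ⟨g⁻¹ * x * g, ?_, by simp [mul_assoc]⟩
    have h2 : SpecialLinearGroup.toGL (g⁻¹ * x * g) = y := by
      rw [map_mul, map_mul, ← hyx, map_inv]
      simp [mul_assoc]
    change SpecialLinearGroup.toGL (g⁻¹ * x * g) ∈ stabL v
    rw [h2]; exact hy

end gen

end Pool.Agent.R647.Chev
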