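import Mathlib

/-!
Lines in `K ^ 2` for a Dedekind domain `R` with fraction field `K`:
the ideal generated by the coordinates, integral matrices, and the matrices which normalise
the ring of integral matrices.
-/

namespace Pool.Agent.R647.Chev

open scoped nonZeroDivisors
open FractionalIdeal Matrix

section

variable {R K : Type*} [CommRing R] [IsDedekindDomain R] [Field K] [Algebra R K]
  [IsFractionRing R K]

/-- The fractional ideal generated by the two coordinates of `v`. -/
noncomputable def cont (R : Type*) {K : Type*} [CommRing R] [IsDedekindDomain R] [Field K]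
    [Algebra R K] [IsFractionRing R K] (v : Fin 2 → K) : FractionalIdeal R⁰ K :=
  spanSingleton R⁰ (v 0) + spanSingleton R⁰ (v 1)

lemma coord_mem (v : Fin 2 → K) (i : Fin 2) : v i ∈ cont R v := by
  fin_cases i
  · exact (le_sup_left : spanSingleton R⁰ (v 0) ≤ spanSingleton R⁰ (v 0) ⊔ spanSingleton R⁰ (v 1))
      (mem_spanSingleton_self _ _)
  · exact (le_sup_right : spanSingleton R⁰ (v 1) ≤ spanSingleton R⁰ (v 0) ⊔ spanSingleton R⁰ (v 1))
      (mem_spanSingleton_self _ _)

lemma cont_le {v : Fin 2 → K} {J : FractionalIdeal R⁰ K} (h : ∀ i, v i ∈ J) : cont R v ≤ J := by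
  refine sup_le ?_ ?_
  · exact spanSingleton_le_iff_mem.2 (h 0)
  · exact spanSingleton_le_iff_mem.2 (h 1)

lemma cont_ne {v : Fin 2 → K} (hv : v ≠ 0) : cont R v ≠ 0 := by
  intro h
  apply hv
  ext i
  have := coord_mem (R := R) v i
  rw [h] at this
  simpa using this

lemma cont_smul (c : K) (v : Fin 2 → K) :
    cont R (c • v) = spanSingleton R⁰ c * cont R v := by
  simp [cont, mul_add]

lemma bez {v : Fin 2 → K} (hv : v ≠ 0) :
    ∃ a b : K, a ∈ (cont R v)⁻¹ ∧ b ∈ (cont R v)⁻¹ ∧ v 0 * a + v 1 * b = 1 := by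
  have h1 : (1 : K) ∈ cont R v * (cont R v)⁻¹ := by
    rw [mul_inv_cancel₀ (cont_ne hv)]
    exact one_mem_one _
  have h2 : cont R v * (cont R v)⁻¹ = spanSingleton R⁰ (v 0) * (cont R v)⁻¹ +
      spanSingleton R⁰ (v 1) * (cont R v)⁻¹ := by
    rw [← add_mul]; rfl
  rw [h2] at h1
  obtain ⟨x, hx, y, hy, hxy⟩ := (FractionalIdeal.mem_add _ _ _).1 h1
  obtain ⟨a, ha, rfl⟩ := mem_singleton_mul.1 hx
  obtain ⟨b, hb, rfl⟩ := mem_singleton_mul.1 hy
  exact ⟨a, b, ha, hb, hxy⟩

end

end Pool.Agent.R647.Chev
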