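import Pool.Agent.R647.Chev.Lines

/-!
Integral matrices: `SL₂(R)`-orbits and `PGL₂(R)`-orbits of lines.
-/

namespace Pool.Agent.R647.Chev

open scoped nonZeroDivisors
open FractionalIdeal Matrix

section

variable {R K : Type*} [CommRing R] [IsDedekindDomain R] [Field K] [Algebra R K]
  [IsFractionRing R K]

/-- The content ideal quotient of two vectors. -/
noncomputable def quo (R : Type*) {K : Type*} [CommRing R] [IsDedekindDomain R] [Field K]
    [Algebra R K] [IsFractionRing R K] (v w : Fin 2 → K) : FractionalIdeal R⁰ K :=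
  cont R w * (cont R v)⁻¹

lemma exists_move {v w : Fin 2 → K} (hv : v ≠ 0) (hw : w ≠ 0) {d : K}
    (hd : spanSingleton R⁰ d = quo R v w ^ 2) :
    ∃ g : Matrix (Fin 2) (Fin 2) K, g.det = d ∧ g *ᵥ v = w ∧
      (∀ i j, g i j ∈ quo R v w) ∧ ∀ i j, g.adjugate i j ∈
        spanSingleton R⁰ d * (quo R v w)⁻¹ := by
  obtain ⟨a, b, ha, hb, hab⟩ := bez (R := R) hv
  obtain ⟨p, q, hp, hq, hpq⟩ := bez (R := R) hw
  have hv' := cont_ne (R := R) hv
  have hw' := cont_ne (R := R) hw
  have hQ : quo R v w ≠ 0 := mul_ne_zero hw' (inv_ne_zero hv')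
  have h1 : spanSingleton R⁰ d * ((cont R w)⁻¹ * cont R v) = quo R v w := by
    rw [hd, quo]
    field_simp
  have h2 : ∀ x y z : K, x ∈ cont R w → y ∈ (cont R v)⁻¹ → z = x * y → z ∈ quo R v w := by
    rintro x y z hx hy rfl
    exact mul_mem_mul hx hy
  have h3 : ∀ x y z : K, x ∈ (cont R w)⁻¹ → y ∈ cont R v → z = d * (x * y) →
      z ∈ quo R v w := by
    rintro x y z hx hy rfl
    rw [← h1]
    exact mul_mem_mul (mem_spanSingleton_self _ _) (mul_mem_mul hx hy)
  have hneg : ∀ x : K, x ∈ quo R v w → -x ∈ quo R v w := by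
    intro x hx
    rw [← FractionalIdeal.mem_coe] at hx ⊢
    exact neg_mem hx
  have hsub : ∀ x y : K, x ∈ quo R v w → y ∈ quo R v w → x - y ∈ quo R v w := by
    intro x y hx hy
    rw [← FractionalIdeal.mem_coe] at hx hy ⊢
    exact sub_mem hx hy
  have hadd : ∀ x y : K, x ∈ quo R v w → y ∈ quo R v w → x + y ∈ quo R v w := by
    intro x y hx hy
    rw [← FractionalIdeal.mem_coe] at hx hy ⊢
    exact add_mem hx hy
  set g : Matrix (Fin 2) (Fin 2) K :=
    !![w 0 * a + d * (q * v 1), w 0 * b - d * (q * v 0);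
       w 1 * a - d * (p * v 1), w 1 * b + d * (p * v 0)] with hg
  have hent : ∀ i j, g i j ∈ quo R v w := by
    intro i j
    fin_cases i <;> fin_cases j
    · exact hadd _ _ (h2 _ _ _ (coord_mem w 0) ha rfl) (h3 _ _ _ hq (coord_mem v 1) rfl)
    · exact hsub _ _ (h2 _ _ _ (coord_mem w 0) hb rfl) (h3 _ _ _ hq (coord_mem v 0) rfl)
    · exact hsub _ _ (h2 _ _ _ (coord_mem w 1) ha rfl) (h3 _ _ _ hp (coord_mem v 1) rfl)
    · exact hadd _ _ (h2 _ _ _ (coord_mem w 1) hb rfl) (h3 _ _ _ hp (coord_mem v 0) rfl)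
  refine ⟨g, ?_, ?_, hent, ?_⟩
  · rw [hg, det_fin_two_of]
    have : (w 0 * a + d * (q * v 1)) * (w 1 * b + d * (p * v 0)) -
        (w 0 * b - d * (q * v 0)) * (w 1 * a - d * (p * v 1)) =
        d * (v 0 * a + v 1 * b) * (w 0 * p + w 1 * q) := by ring
    rw [this, hab, hpq]; ring
  · ext i
    fin_cases i
    · simp only [hg, mulVec, dotProduct, Fin.sum_univ_two]
      simp
      have : (w 0 * a + d * (q * v 1)) * v 0 + (w 0 * b - d * (q * v 0)) * v 1 =
        w 0 * (v 0 * a + v 1 * b) := by ring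
      rw [this, hab, mul_one]
    · simp only [hg, mulVec, dotProduct, Fin.sum_univ_two]
      simp
      have : (w 1 * a - d * (p * v 1)) * v 0 + (w 1 * b + d * (p * v 0)) * v 1 =
        w 1 * (v 0 * a + v 1 * b) := by ring
      rw [this, hab, mul_one]
  · have h4 : spanSingleton R⁰ d * (quo R v w)⁻¹ = quo R v w := by
      rw [hd]; field_simp
    rw [h4]
    intro i j
    rw [adjugate_fin_two]
    fin_cases i <;> fin_cases j
    · exact hent 1 1
    · exact hneg _ (hent 0 1)
    · exact hneg _ (hent 1 0)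
    · exact hent 0 0

/-- Content ideal of a matrix. -/
noncomputable def mcont (R : Type*) {K : Type*} [CommRing R] [IsDedekindDomain R] [Field K]
    [Algebra R K] [IsFractionRing R K] (g : Matrix (Fin 2) (Fin 2) K) : FractionalIdeal R⁰ K :=
  cont R (fun i => g i 0) + cont R (fun i => g i 1)

lemma ent_mem (g : Matrix (Fin 2) (Fin 2) K) (i j : Fin 2) : g i j ∈ mcont R g := by
  fin_cases j
  · exact (le_sup_left : cont R (fun i => g i 0) ≤ _ ⊔ cont R (fun i => g i 1))
      (coord_mem (fun i => g i 0) i)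
  · exact (le_sup_right : cont R (fun i => g i 1) ≤ cont R (fun i => g i 0) ⊔ _)
      (coord_mem (fun i => g i 1) i)

lemma mcont_le {g : Matrix (Fin 2) (Fin 2) K} {J : FractionalIdeal R⁰ K}
    (h : ∀ i j, g i j ∈ J) : mcont R g ≤ J :=
  sup_le (cont_le fun i => h i 0) (cont_le fun i => h i 1)

lemma cont_mulVec_le (g : Matrix (Fin 2) (Fin 2) K) (v : Fin 2 → K) :
    cont R (g *ᵥ v) ≤ mcont R g * cont R v := by
  apply cont_le
  intro i
  simp only [mulVec, dotProduct, Fin.sum_univ_two]
  rw [← FractionalIdeal.mem_coe]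
  exact add_mem (mul_mem_mul (ent_mem g i 0) (coord_mem v 0))
    (mul_mem_mul (ent_mem g i 1) (coord_mem v 1))

/-- A matrix over `K` is integral when its entries come from `R`. -/
def IsInt (R : Type*) {K : Type*} [CommRing R] [Field K] [Algebra R K]
    (M : Matrix (Fin 2) (Fin 2) K) : Prop :=
  ∃ N : Matrix (Fin 2) (Fin 2) R, M = N.map (algebraMap R K)

omit [IsDedekindDomain R] [IsFractionRing R K] in
lemma isInt_iff (M : Matrix (Fin 2) (Fin 2) K) :
    IsInt R M ↔ ∀ i j, M i j ∈ (1 : FractionalIdeal R⁰ K) := by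
  constructor
  · rintro ⟨N, rfl⟩ i j
    rw [FractionalIdeal.mem_one_iff]
    exact ⟨N i j, rfl⟩
  · intro h
    choose N hN using fun i j => (FractionalIdeal.mem_one_iff R⁰).1 (h i j)
    exact ⟨Matrix.of N, by ext i j; simp [hN]⟩

/-- If conjugation by `g` preserves the integral matrices, the content ideals behave well. -/
lemma mcont_mul_inv {g h : Matrix (Fin 2) (Fin 2) K} (hgh : g * h = 1)
    (hint : ∀ M, IsInt R M → IsInt R (g * M * h)) : mcont R g * mcont R h = 1 := by
  have key : ∀ k i j l, g k i * h j l ∈ (1 : FractionalIdeal R⁰ K) := by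
    intro k i j l
    have h1 : IsInt R (Matrix.single i j (1 : K)) :=
      ⟨Matrix.single i j 1, by ext a b; simp [Matrix.single_apply, apply_ite (algebraMap R K)]⟩
    have h2 := (isInt_iff _).1 (hint _ h1) k l
    have h3 : (g * Matrix.single i j (1 : K) * h) k l = g k i * h j l := by
      rw [Matrix.mul_assoc, Matrix.mul_apply]
      simp only [Matrix.mul_apply, Matrix.single_apply]
      fin_cases i <;> fin_cases j <;> simp
    rwa [h3] at h2
  apply le_antisymm
  · have : ∀ i j, spanSingleton R⁰ (g i j) * mcont R h ≤ 1 := by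
      intro k i
      rw [← mul_one (1 : FractionalIdeal R⁰ K)] 
      rw [FractionalIdeal.mul_le]
      intro x hx y hy
      obtain ⟨r, rfl⟩ := (mem_spanSingleton _).1 hx
      rw [mul_one]
      have hle : mcont R h ≤ spanSingleton R⁰ (g k i)⁻¹ ∨ g k i = 0 := by
        by_cases h0 : g k i = 0
        · exact Or.inr h0
        · left
          apply mcont_le
          intro j l
          obtain ⟨s, hs⟩ := (FractionalIdeal.mem_one_iff R⁰).1 (key k i j l)
          rw [mem_spanSingleton]
          exact ⟨s, by rw [Algebra.smul_def, hs]; field_simp⟩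
      rcases hle with hle | h0
      · obtain ⟨s, hs⟩ := (mem_spanSingleton _).1 (hle hy)
        rw [FractionalIdeal.mem_one_iff]
        by_cases h0 : g k i = 0
        · exact ⟨0, by simp [h0]⟩
        refine ⟨r * s, ?_⟩
        rw [← hs, Algebra.smul_def, Algebra.smul_def, map_mul]
        field_simp
      · rw [h0]; simp
    have h2 : mcont R g = ((spanSingleton R⁰ (g 0 0) + spanSingleton R⁰ (g 1 0)) +
      (spanSingleton R⁰ (g 0 1) + spanSingleton R⁰ (g 1 1))) := rfl
    rw [h2, add_mul, add_mul, add_mul]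
    exact sup_le (sup_le (this 0 0) (this 1 0)) (sup_le (this 0 1) (this 1 1))
  · rw [FractionalIdeal.one_le]
    have h2 : (g * h) 0 0 = 1 := by rw [hgh]; rfl
    rw [Matrix.mul_apply, Fin.sum_univ_two] at h2
    rw [← h2, ← FractionalIdeal.mem_coe]
    exact add_mem (mul_mem_mul (ent_mem g 0 0) (ent_mem h 0 0))
      (mul_mem_mul (ent_mem g 0 1) (ent_mem h 1 0))

lemma mcont_adj (g : Matrix (Fin 2) (Fin 2) K) : mcont R g.adjugate = mcont R g := by
  have hneg : ∀ (J : FractionalIdeal R⁰ K) (x : K), x ∈ J → -x ∈ J := by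
    intro J x hx
    rw [← FractionalIdeal.mem_coe] at hx ⊢
    exact neg_mem hx
  apply le_antisymm
  · apply mcont_le
    intro i j
    rw [adjugate_fin_two]
    fin_cases i <;> fin_cases j
    · exact ent_mem g 1 1
    · exact hneg _ _ (ent_mem g 0 1)
    · exact hneg _ _ (ent_mem g 1 0)
    · exact ent_mem g 0 0
  · apply mcont_le
    intro i j
    have h := fun i j => ent_mem (R := R) g.adjugate i j
    have h00 := h 0 0
    have h01 := h 0 1
    have h10 := h 1 0
    have h11 := h 1 1
    rw [adjugate_fin_two] at h00 h01 h10 h11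
    fin_cases i <;> fin_cases j
    · rw [adjugate_fin_two]; exact h11
    · rw [adjugate_fin_two]; simpa using hneg _ _ h01
    · rw [adjugate_fin_two]; simpa using hneg _ _ h10
    · rw [adjugate_fin_two]; exact h00

lemma mcont_smul (c : K) (g : Matrix (Fin 2) (Fin 2) K) :
    mcont R (c • g) = spanSingleton R⁰ c * mcont R g := by
  have := cont_smul (R := R) c (fun i => g i 0)
  have h2 := cont_smul (R := R) c (fun i => g i 1)
  simp only [mcont, mul_add]
  rw [← this, ← h2]
  rfl

/-- The two consequences of integrality of the conjugation. -/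
lemma mcont_sq (g : GL (Fin 2) K)
    (hint : ∀ M, IsInt R M → IsInt R (g.1 * M * (g⁻¹).1)) :
    mcont R g.1 ^ 2 = spanSingleton R⁰ g.1.det ∧
      ∀ v : Fin 2 → K, cont R (g.1 *ᵥ v) = mcont R g.1 * cont R v := by
  have h1 : mcont R g.1 * mcont R (g⁻¹).1 = 1 :=
    mcont_mul_inv (by rw [← Units.val_mul, mul_inv_cancel, Units.val_one]) hint
  have hdet : g.1.det ≠ 0 := by
    have := g.2
    intro h0
    have h2 : (g.1 * (g⁻¹).1).det = 1 := by
      rw [← Units.val_mul, mul_inv_cancel, Units.val_one, det_one]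
    rw [det_mul, h0, zero_mul] at h2
    exact zero_ne_one h2
  have h2 : (g⁻¹).1 = g.1.det⁻¹ • g.1.adjugate := by
    rw [Matrix.coe_units_inv, Matrix.inv_def, Ring.inverse_eq_inv']
  constructor
  · rw [h2, mcont_smul, mcont_adj] at h1
    have h3 : spanSingleton R⁰ g.1.det * spanSingleton R⁰ g.1.det⁻¹ = 1 := by
      rw [spanSingleton_mul_spanSingleton, mul_inv_cancel₀ hdet, spanSingleton_one]
    calc mcont R g.1 ^ 2 = (spanSingleton R⁰ g.1.det * spanSingleton R⁰ g.1.det⁻¹) *
          mcont R g.1 ^ 2 := by rw [h3, one_mul]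
      _ = spanSingleton R⁰ g.1.det * (mcont R g.1 * (spanSingleton R⁰ g.1.det⁻¹ *
          mcont R g.1)) := by ring
      _ = spanSingleton R⁰ g.1.det := by rw [h1, mul_one]
  · intro v
    apply le_antisymm (cont_mulVec_le _ _)
    have h4 : cont R v ≤ mcont R (g⁻¹).1 * cont R (g.1 *ᵥ v) := by
      have h5 : v = (g⁻¹).1 *ᵥ (g.1 *ᵥ v) := by
        rw [mulVec_mulVec, ← Units.val_mul, inv_mul_cancel, Units.val_one, one_mulVec]
      conv_lhs => rw [h5]
      exact cont_mulVec_le _ _
    calc mcont R g.1 * cont R v ≤ mcont R g.1 * (mcont R (g⁻¹).1 * cont R (g.1 *ᵥ v)) := by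
          gcongr
      _ = cont R (g.1 *ᵥ v) := by rw [← mul_assoc, h1, one_mul]

end

end Pool.Agent.R647.Chev
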