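import Pool.Agent.R647.Chev.Groups

/-!
Orbits of the integral groups on the Borel subgroups, in terms of ideal classes.
-/

namespace Pool.Agent.R647.Chev

open scoped nonZeroDivisors
open FractionalIdeal Matrix

section

variable {R K : Type*} [CommRing R] [IsDedekindDomain R] [Field K] [Algebra R K]
  [IsFractionRing R K]

open Classical in
/-- The class of a fractional ideal (trivial for the zero ideal). -/
noncomputable def cl (J : FractionalIdeal R⁰ K) : ClassGroup R :=
  if h : J = 0 then 1 else ClassGroup.mk K (Units.mk0 J h)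

lemma cl_of_ne {J : FractionalIdeal R⁰ K} (h : J ≠ 0) :
    cl J = ClassGroup.mk K (Units.mk0 J h) := dif_neg h

lemma cl_mul {I J : FractionalIdeal R⁰ K} (hI : I ≠ 0) (hJ : J ≠ 0) :
    cl (I * J) = cl I * cl J := by
  rw [cl_of_ne hI, cl_of_ne hJ, cl_of_ne (mul_ne_zero hI hJ), ← map_mul]
  congr 1
  ext
  simp

lemma cl_eq_one_iff {J : FractionalIdeal R⁰ K} (h : J ≠ 0) :
    cl J = 1 ↔ ∃ x : K, x ≠ 0 ∧ J = spanSingleton R⁰ x := by
  rw [cl_of_ne h, ClassGroup.mk_eq_one_iff]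
  constructor
  · intro hp
    obtain ⟨x, hx⟩ := @Submodule.IsPrincipal.principal _ _ _ _ _ _ hp
    have hJ : J = spanSingleton R⁰ x := by
      apply Subtype.coe_injective
      rw [Units.val_mk0] at hx
      simpa only [val_eq_coe, coe_spanSingleton] using hx
    refine ⟨x, ?_, hJ⟩
    rintro rfl
    exact h (by rw [hJ]; simp)
  · rintro ⟨x, hx, hJ⟩
    refine ⟨⟨x, ?_⟩⟩
    have : ((Units.mk0 J h : (FractionalIdeal R⁰ K)ˣ) : FractionalIdeal R⁰ K) =
      spanSingleton R⁰ x := hJ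
    rw [this, coe_spanSingleton]

lemma cl_inv {J : FractionalIdeal R⁰ K} (h : J ≠ 0) : cl J⁻¹ = (cl J)⁻¹ := by
  have h1 : cl (J * J⁻¹) = 1 := by
    rw [mul_inv_cancel₀ h]
    exact (cl_eq_one_iff (one_ne_zero (α := FractionalIdeal R⁰ K))).2
      ⟨1, one_ne_zero, by simp⟩
  rw [cl_mul h (inv_ne_zero h)] at h1
  exact eq_inv_of_mul_eq_one_right h1

lemma cl_pow {J : FractionalIdeal R⁰ K} (h : J ≠ 0) : cl (J ^ 2) = cl J ^ 2 := by
  rw [pow_two, cl_mul h h, pow_two]

lemma cl_span {x : K} (hx : x ≠ 0) : cl (spanSingleton R⁰ x) = 1 :=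
  (cl_eq_one_iff (spanSingleton_ne_zero_iff.2 hx)).2 ⟨x, hx, rfl⟩

lemma cl_surj (c : ClassGroup R) : ∃ v : Fin 2 → K, v ≠ 0 ∧ cl (cont R v) = c := by
  obtain ⟨I, rfl⟩ := ClassGroup.mk0_surjective c
  have hI : (I : Ideal R) ≠ ⊥ := mem_nonZeroDivisors_iff_ne_zero.1 I.2
  obtain ⟨x, hx, hx0⟩ := Submodule.exists_mem_ne_zero_of_ne_bot hI
  obtain ⟨y, hy⟩ := IsDedekindDomain.exists_eq_span_pair hx hx0
  have hv : (![algebraMap R K x, algebraMap R K y] : Fin 2 → K) ≠ 0 := by
    intro h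
    have := congrFun h 0
    simp at this
    exact hx0 this
  refine ⟨_, hv, ?_⟩
  rw [cl_of_ne (cont_ne hv), ← ClassGroup.mk_mk0 K I]
  congr 1
  ext1
  rw [FractionalIdeal.coe_mk0, Units.val_mk0]
  rw [hy, Ideal.span_insert, coeIdeal_sup, coeIdeal_span_singleton, coeIdeal_span_singleton]
  simp [cont]

omit [IsDedekindDomain R] in
/-- Integrality criterion. -/
lemma mem_intPGL {ψ : PGL2 K} (h : ∀ M, IsInt R M → IsInt R (ψ M))
    (h' : ∀ M, IsInt R M → IsInt R (ψ.symm M)) : ψ ∈ intPGL R K := by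
  let ι : Matrix (Fin 2) (Fin 2) R →ₐ[R] Matrix (Fin 2) (Fin 2) K :=
    (Algebra.ofId R K).mapMatrix
  have hι : ∀ M, ι M = M.map (algebraMap R K) := fun M => rfl
  have hinj : Function.Injective ι := by
    intro M N hMN
    rw [hι, hι] at hMN
    exact Matrix.map_injective (IsFractionRing.injective R K) hMN
  choose f hf using fun M : Matrix (Fin 2) (Fin 2) R => h (ι M) ⟨M, hι M⟩
  choose f' hf' using fun M : Matrix (Fin 2) (Fin 2) R => h' (ι M) ⟨M, hι M⟩
  have hff : ∀ M, f' (f M) = M := by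
    intro M
    apply hinj
    rw [hι, ← hf', hι, ← hf, AlgEquiv.symm_apply_apply]
  have hff' : ∀ M, f (f' M) = M := by
    intro M
    apply hinj
    rw [hι, ← hf, hι, ← hf', AlgEquiv.apply_symm_apply]
  let φ : PGL2 R := AlgEquiv.ofRingEquiv (f := 
    { toFun := f
      invFun := f'
      left_inv := hff
      right_inv := hff'
      map_mul' := fun M N => hinj (by
        rw [map_mul, hι, hι, hι, ← hf, ← hf, ← hf, map_mul, map_mul])
      map_add' := fun M N => hinj (by
        rw [map_add, hι, hι, hι, ← hf, ← hf, ← hf, map_add, map_add]) }) (by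
      intro r
      apply hinj
      change ι (f _) = _
      rw [hι, ← hf]
      have h1 : ι (algebraMap R _ r) = algebraMap K _ (algebraMap R K r) := by
        rw [AlgHom.commutes]; rfl
      rw [h1, AlgEquiv.commutes])
  exact ⟨φ, fun M => hf M⟩

lemma isInt_conj {g h : Matrix (Fin 2) (Fin 2) K} {C : FractionalIdeal R⁰ K} (hC : C ≠ 0)
    (hg : ∀ i j, g i j ∈ C) (hh : ∀ i j, h i j ∈ C⁻¹) (M : Matrix (Fin 2) (Fin 2) K)
    (hM : IsInt R M) : IsInt R (g * M * h) := by
  rw [isInt_iff] at hM ⊢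
  have h1 : (1 : FractionalIdeal R⁰ K) = C * 1 * C⁻¹ := by
    rw [mul_one, mul_inv_cancel₀ hC]
  intro i j
  rw [h1, Matrix.mul_apply]
  rw [← FractionalIdeal.mem_coe]
  refine Submodule.sum_mem _ fun k _ => mul_mem_mul ?_ (hh k j)
  rw [Matrix.mul_apply, ← FractionalIdeal.mem_coe]
  exact Submodule.sum_mem _ fun l _ => mul_mem_mul (hg i l) (hM l k)

theorem orbP {v w : Fin 2 → K} (hv : v ≠ 0) (hw : w ≠ 0) :
    (∃ γ ∈ intPGL R K, cnj γ (borP v) = borP w) ↔
      cl (cont R v) ^ 2 = cl (cont R w) ^ 2 := by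
  have hv' := cont_ne (R := R) hv
  have hw' := cont_ne (R := R) hw
  constructor
  · rintro ⟨γ, ⟨φ, hφ⟩, hγ⟩
    obtain ⟨g, rfl⟩ := cj_surj γ
    have hint : ∀ M, IsInt R M → IsInt R (g.1 * M * (g⁻¹).1) := by
      rintro _ ⟨N, rfl⟩
      rw [← cj_apply, hφ]
      exact ⟨_, rfl⟩
    obtain ⟨h1, h2⟩ := mcont_sq g hint
    rw [borP_conj, borP_eq_iff (mulVec_ne hv) hw] at hγ
    obtain ⟨c, hc, rfl⟩ := hγ
    have hg : mcont R g.1 ≠ 0 := by
      intro h0
      rw [h0] at h2
      exact cont_ne (R := R) (mulVec_ne (g := g) hv) (by rw [h2, zero_mul])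
    rw [cont_smul, h2, cl_mul (spanSingleton_ne_zero_iff.2 hc) (mul_ne_zero hg hv'), cl_span hc,
      one_mul, cl_mul hg hv', mul_pow, ← cl_pow hg, h1]
    rw [cl_span, one_mul]
    intro h0
    rw [h0, spanSingleton_zero] at h1
    exact hg (pow_eq_zero_iff two_ne_zero |>.1 h1)
  · intro h
    have hq : quo R v w ≠ 0 := mul_ne_zero hw' (inv_ne_zero hv')
    have h1 : cl (quo R v w ^ 2) = 1 := by
      rw [cl_pow hq, quo, cl_mul hw' (inv_ne_zero hv'), cl_inv hv', mul_pow, inv_pow, h,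
        mul_inv_cancel]
    obtain ⟨d, hd, h2⟩ := (cl_eq_one_iff (pow_ne_zero 2 hq)).1 h1
    obtain ⟨g, hdet, hgv, hent, hadj⟩ := exists_move hv hw h2.symm
    have hunit : IsUnit g.det := by rw [hdet]; exact hd.isUnit
    let G : GL (Fin 2) K := Matrix.GeneralLinearGroup.mk'' g hunit
    have hG : G.1 = g := rfl
    have hGi : (G⁻¹).1 = d⁻¹ • g.adjugate := by
      rw [Matrix.coe_units_inv, Matrix.inv_def, Ring.inverse_eq_inv', hG, hdet]
    have hent' : ∀ i j, (G⁻¹).1 i j ∈ (quo R v w)⁻¹ := by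
      intro i j
      rw [hGi]
      have h3 := hadj i j
      obtain ⟨y, hy, h4⟩ := mem_singleton_mul.1 h3
      have : (d⁻¹ • g.adjugate) i j = y := by
        rw [Matrix.smul_apply, h4, smul_eq_mul]
        field_simp
      rw [this]; exact hy
    refine ⟨cj K G, mem_intPGL ?_ ?_, ?_⟩
    · intro M hM
      rw [cj_apply]
      exact isInt_conj hq hent hent' M hM
    · intro M hM
      have h5 : (cj K G).symm M = cj K G⁻¹ M := by
        rw [map_inv]; rfl
      rw [h5, cj_apply, inv_inv]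
      exact isInt_conj (inv_ne_zero hq) hent' (by rw [inv_inv]; exact hent) M hM
    · rw [borP_conj, hG, hgv]

lemma cont_int_le (g : Matrix (Fin 2) (Fin 2) R) (v : Fin 2 → K) :
    cont R ((g.map (algebraMap R K)) *ᵥ v) ≤ cont R v := by
  apply cont_le
  intro i
  simp only [mulVec, dotProduct, Fin.sum_univ_two, map_apply]
  rw [← FractionalIdeal.mem_coe]
  simp only [← Algebra.smul_def]
  exact add_mem (Submodule.smul_mem _ _ (coord_mem v 0)) (Submodule.smul_mem _ _ (coord_mem v 1))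

theorem orbS {v w : Fin 2 → K} (hv : v ≠ 0) (hw : w ≠ 0) :
    (∃ γ ∈ intSL R K, cnj γ (borS v) = borS w) ↔ cl (cont R v) = cl (cont R w) := by
  have hv' := cont_ne (R := R) hv
  have hw' := cont_ne (R := R) hw
  constructor
  · rintro ⟨γ, ⟨φ, rfl⟩, hγ⟩
    have h1 : cont R ((SpecialLinearGroup.map (algebraMap R K) φ).1 *ᵥ v) = cont R v := by
      apply le_antisymm (cont_int_le φ.1 v)
      have h2 : (φ⁻¹).1.map (algebraMap R K) *ᵥ
          ((SpecialLinearGroup.map (algebraMap R K) φ).1 *ᵥ v) = v := by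
        have h3 : (φ⁻¹).1.map (algebraMap R K) * (SpecialLinearGroup.map (algebraMap R K) φ).1
            = 1 := by
          have h4 : SpecialLinearGroup.map (algebraMap R K) φ⁻¹ *
            SpecialLinearGroup.map (algebraMap R K) φ = 1 := by
            rw [← map_mul, inv_mul_cancel, map_one]
          exact congrArg Subtype.val h4
        rw [mulVec_mulVec, h3, one_mulVec]
      conv_lhs => rw [← h2]
      exact cont_int_le _ _
    have hne : (SpecialLinearGroup.map (algebraMap R K) φ).1 *ᵥ v ≠ 0 :=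
      mulVec_ne (g := SpecialLinearGroup.toGL (SpecialLinearGroup.map (algebraMap R K) φ)) hv
    rw [borS_conj, borS_eq_iff hne hw] at hγ
    obtain ⟨c, hc, rfl⟩ := hγ
    rw [cont_smul, h1, cl_mul (spanSingleton_ne_zero_iff.2 hc) hv', cl_span hc, one_mul]
  · intro h
    have h1 : cl (cont R w * (cont R v)⁻¹) = 1 := by
      rw [cl_mul hw' (inv_ne_zero hv'), cl_inv hv', h, mul_inv_cancel]
    obtain ⟨c, hc, h2⟩ := (cl_eq_one_iff (mul_ne_zero hw' (inv_ne_zero hv'))).1 h1
    have hw2 : c⁻¹ • w ≠ 0 := smul_ne_zero (inv_ne_zero hc) hw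
    have h3 : quo R v (c⁻¹ • w) = 1 := by
      rw [quo, cont_smul, mul_assoc, h2, spanSingleton_mul_spanSingleton, inv_mul_cancel₀ hc,
        spanSingleton_one]
    obtain ⟨g, hdet, hgv, hent, -⟩ := exists_move (R := R) hv hw2 (d := 1)
      (by rw [h3]; simp)
    rw [h3] at hent
    obtain ⟨N, hN⟩ := (isInt_iff (R := R) g).2 hent
    have hNdet : N.det = 1 := by
      apply IsFractionRing.injective R K
      have h5 : algebraMap R K N.det = (N.map (algebraMap R K)).det := by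
        rw [RingHom.map_det, RingHom.mapMatrix_apply]
      rw [h5, ← hN, hdet, map_one]
    let S : SpecialLinearGroup (Fin 2) R := ⟨N, hNdet⟩
    refine ⟨SpecialLinearGroup.map (algebraMap R K) S, ⟨S, rfl⟩, ?_⟩
    have h4 : (SpecialLinearGroup.map (algebraMap R K) S).1 = g := hN.symm
    rw [borS_conj, h4, hgv, borS_eq_iff hw2 hw]
    exact ⟨c, hc, by rw [smul_smul, mul_inv_cancel₀ hc, one_smul]⟩

end

end Pool.Agent.R647.Chev
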