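import Pool.Agent.R647.Chev.Orbits

/-!
The quotients of the buildings of `PGL₂ⁿ` and `SL₂ⁿ` by the integral points.
-/

namespace Pool.Agent.R647.Chev

open scoped nonZeroDivisors NumberField
open FractionalIdeal Matrix

section gen

variable {K : Type*} [Field K]

lemma cj_mem_borP {g : GL (Fin 2) K} {w : Fin 2 → K} : cj K g ∈ borP w ↔ g ∈ stabL w := by
  constructor
  · rintro ⟨g', hg', h3⟩
    have h4 : cj K (g'⁻¹ * g) = 1 := by rw [map_mul, map_inv, h3, inv_mul_cancel]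
    obtain ⟨c, hc, h5⟩ := cj_eq_one h4
    have h6 : g'⁻¹ * g ∈ stabL w := ⟨c, hc, h5 w⟩
    have := (stabL w).mul_mem hg' h6
    rwa [mul_inv_cancel_left] at this
  · intro h; exact ⟨g, h, rfl⟩

lemma stab_le_of_borP {v w : Fin 2 → K} (h : borP v ≤ borP w) : borS v ≤ borS w :=
  fun _ hg => cj_mem_borP.1 (h (cj_mem_borP.2 hg))

lemma borS_ne_top {v : Fin 2 → K} (hv : v ≠ 0) : borS v ≠ ⊤ := by
  intro h
  have key : ∀ w : Fin 2 → K, w ≠ 0 → ∃ c : K, c ≠ 0 ∧ v = c • w := fun w hw =>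
    line_unique hw hv (by rw [h]; exact le_top)
  obtain ⟨c, hc, h1⟩ := key ![1, 0] (by intro h0; simpa using congrFun h0 0)
  obtain ⟨d, hd, h2⟩ := key ![0, 1] (by intro h0; simpa using congrFun h0 1)
  have := congrFun (h1.symm.trans h2) 0
  simp at this
  exact hc this

lemma top_not_borS : (⊤ : Subgroup (SpecialLinearGroup (Fin 2) K)) ∉ BorS K := by
  rintro ⟨v, hv, h⟩
  exact borS_ne_top hv h.symm

lemma top_not_borP : (⊤ : Subgroup (PGL2 K)) ∉ BorP K := by
  rintro ⟨v, hv, h⟩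
  apply borS_ne_top hv
  rw [eq_top_iff]
  intro g _
  exact cj_mem_borP.1 (h ▸ Subgroup.mem_top _)

lemma anti_borS : ∀ b ∈ BorS K, ∀ b' ∈ BorS K, b' ≤ b → b' = b := by
  rintro _ ⟨v, hv, rfl⟩ _ ⟨w, hw, rfl⟩ h
  exact (borS_eq_iff hw hv).2 (line_unique hw hv h)

lemma anti_borP : ∀ b ∈ BorP K, ∀ b' ∈ BorP K, b' ≤ b → b' = b := by
  rintro _ ⟨v, hv, rfl⟩ _ ⟨w, hw, rfl⟩ h
  exact (borP_eq_iff hw hv).2 (line_unique hw hv (stab_le_of_borP h))

end gen

section

variable (R K : Type*) [CommRing R] [IsDedekindDomain R] [Field K] [Algebra R K]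
  [IsFractionRing R K]

lemma cl_cont_smul {c : K} (hc : c ≠ 0) {v : Fin 2 → K} (hv : v ≠ 0) :
    cl (cont R (c • v)) = cl (cont R v) := by
  rw [cont_smul, cl_mul (spanSingleton_ne_zero_iff.2 hc) (cont_ne hv), cl_span hc, one_mul]

open Classical in
/-- The ideal class attached to a Borel subgroup of `SL₂(K)`. -/
noncomputable def kS (b : Subgroup (SpecialLinearGroup (Fin 2) K)) : ClassGroup R :=
  if h : b ∈ BorS K then cl (cont R h.choose) else 1

lemma kS_bor {v : Fin 2 → K} (hv : v ≠ 0) : kS R K (borS v) = cl (cont R v) := by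
  have h : borS v ∈ BorS K := ⟨v, hv, rfl⟩
  rw [kS, dif_pos h]
  have h1 := h.choose_spec
  obtain ⟨c, hc, h2⟩ := (borS_eq_iff hv h1.1).1 h1.2
  conv_lhs => rw [h2]
  exact cl_cont_smul R K hc hv

open Classical in
/-- The square of the ideal class attached to a Borel subgroup of `PGL₂(K)`. -/
noncomputable def kP (b : Subgroup (PGL2 K)) : (powMonoidHom 2 : ClassGroup R →* ClassGroup R).range :=
  if h : b ∈ BorP K then ⟨cl (cont R h.choose) ^ 2, _, rfl⟩ else 1

lemma kP_bor {v : Fin 2 → K} (hv : v ≠ 0) : (kP R K (borP v)).1 = cl (cont R v) ^ 2 := by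
  have h : borP v ∈ BorP K := ⟨v, hv, rfl⟩
  rw [kP, dif_pos h]
  have h1 := h.choose_spec
  obtain ⟨c, hc, h2⟩ := (borP_eq_iff hv h1.1).1 h1.2
  change cl (cont R h.choose) ^ 2 = _
  conv_lhs => rw [h2]
  rw [cl_cont_smul R K hc hv]

/-- The quotient of the building of `SL₂ⁿ` is the join of `n` copies of the class group. -/
theorem quot_SL (n : ℕ) :
    Nonempty (Cells (intSL R K) (BorS K) n ≃o JoinC (ClassGroup R) n) := by
  apply cells_join (kS R K)
  · rintro _ ⟨v, hv, rfl⟩ _ ⟨w, hw, rfl⟩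
    rw [kS_bor R K hv, kS_bor R K hw]
    exact orbS hv hw
  · intro ω
    obtain ⟨v, hv, h⟩ := cl_surj (K := K) ω
    exact ⟨borS v, ⟨v, hv, rfl⟩, by rw [kS_bor R K hv, h]⟩
  · exact top_not_borS
  · exact anti_borS

/-- The quotient of the building of `PGL₂ⁿ` is the join of `n` copies of the group of squares
of the class group. -/
theorem quot_PGL (n : ℕ) :
    Nonempty (Cells (intPGL R K) (BorP K) n ≃o
      JoinC (powMonoidHom 2 : ClassGroup R →* ClassGroup R).range n) := by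
  apply cells_join (kP R K)
  · rintro _ ⟨v, hv, rfl⟩ _ ⟨w, hw, rfl⟩
    rw [Subtype.ext_iff, kP_bor R K hv, kP_bor R K hw]
    exact orbP hv hw
  · rintro ⟨_, c, rfl⟩
    obtain ⟨v, hv, h⟩ := cl_surj (K := K) c
    exact ⟨borP v, ⟨v, hv, rfl⟩, by rw [Subtype.ext_iff, kP_bor R K hv, h]; rfl⟩
  · exact top_not_borP
  · exact anti_borP

end

/-- For a number field and `n ≥ 1`, the two quotients are isomorphic exactly when the class
number is odd. -/
theorem iso_iff_odd (K : Type*) [Field K] [NumberField K] (n : ℕ) (hn : 1 ≤ n) :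
    Nonempty (Cells (intPGL (𝓞 K) K) (BorP K) n ≃o Cells (intSL (𝓞 K) K) (BorS K) n) ↔
      Odd (NumberField.classNumber K) := by
  obtain ⟨e1⟩ := quot_PGL (𝓞 K) K n
  obtain ⟨e2⟩ := quot_SL (𝓞 K) K n
  have hcard : NumberField.classNumber K = Nat.card (ClassGroup (𝓞 K)) := by
    rw [NumberField.classNumber, Nat.card_eq_fintype_card]
  rw [hcard]
  constructor
  · rintro ⟨e⟩
    have h1 : Nat.card (JoinC (powMonoidHom 2 : ClassGroup (𝓞 K) →* ClassGroup (𝓞 K)).range n) =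
      Nat.card (JoinC (ClassGroup (𝓞 K)) n) :=
      Nat.card_congr ((e1.symm.toEquiv.trans e.toEquiv).trans e2.toEquiv)
    rw [card_join, card_join] at h1
    have h2 : ∀ m : ℕ, 1 ≤ (m + 1) ^ n := fun m => Nat.one_le_pow _ _ (Nat.succ_pos m)
    have h3 : (Nat.card (powMonoidHom 2 : ClassGroup (𝓞 K) →* ClassGroup (𝓞 K)).range + 1) ^ n =
      (Nat.card (ClassGroup (𝓞 K)) + 1) ^ n := by
      have := h2 (Nat.card (powMonoidHom 2 : ClassGroup (𝓞 K) →* ClassGroup (𝓞 K)).range)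
      have := h2 (Nat.card (ClassGroup (𝓞 K)))
      omega
    have h4 := Nat.pow_left_injective (by omega : n ≠ 0) h3
    have h5 : Nat.card (powMonoidHom 2 : ClassGroup (𝓞 K) →* ClassGroup (𝓞 K)).range =
      Nat.card (ClassGroup (𝓞 K)) := by omega
    have h6 : (powMonoidHom 2 : ClassGroup (𝓞 K) →* ClassGroup (𝓞 K)).range = ⊤ :=
      Subgroup.eq_top_of_card_eq _ h5
    have h7 : Function.Surjective (powMonoidHom 2 : ClassGroup (𝓞 K) →* ClassGroup (𝓞 K)) :=
      MonoidHom.range_eq_top.1 h6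
    have h8 := Finite.injective_iff_surjective.2 h7
    rw [← Nat.not_even_iff_odd]
    intro hev
    obtain ⟨x, hx⟩ := exists_prime_orderOf_dvd_card' 2 (even_iff_two_dvd.1 hev)
    have h9 : x = 1 := h8 (by
      change x ^ 2 = 1 ^ 2
      rw [one_pow, ← hx, pow_orderOf_eq_one])
    rw [h9, orderOf_one] at hx
    exact absurd hx (by norm_num)
  · intro hodd
    have hinj : Function.Injective (powMonoidHom 2 : ClassGroup (𝓞 K) →* ClassGroup (𝓞 K)) := by
      rw [injective_iff_map_eq_one]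
      intro x hx
      have h1 : orderOf x ∣ 2 := orderOf_dvd_of_pow_eq_one hx
      have h2 : orderOf x ∣ Nat.card (ClassGroup (𝓞 K)) := orderOf_dvd_natCard x
      have h3 : Nat.Coprime 2 (Nat.card (ClassGroup (𝓞 K))) :=
        (Nat.coprime_two_left).2 hodd
      have h4 := Nat.Coprime.eq_one_of_dvd (Nat.Coprime.coprime_dvd_left h1 h3) h2
      exact orderOf_eq_one_iff.1 h4
    have hsurj := Finite.injective_iff_surjective.1 hinj
    have htop := MonoidHom.range_eq_top.2 hsurj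
    obtain ⟨e3⟩ := join_congr (Ω := (powMonoidHom 2 : ClassGroup (𝓞 K) →* ClassGroup (𝓞 K)).range)
      (Ω' := ClassGroup (𝓞 K)) ((Equiv.setCongr (by rw [htop]; rfl)).trans (Equiv.Set.univ _)) n
    exact ⟨(e1.trans e3).trans e2.symm⟩

end Pool.Agent.R647.Chev
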