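import Pool.Agent.R647.Chev.Orbits

/-!
Symplectic space `K ^ (2 n)` with its standard lattice over a Dedekind domain: contents of
vectors, adapted systems.
-/

namespace Pool.Agent.R647.Chev

open scoped nonZeroDivisors
open FractionalIdeal

/-- The standard symplectic form. -/
def om (n : ℕ) (K : Type*) [Field K] :
    ((Fin n ⊕ Fin n) → K) →ₗ[K] ((Fin n ⊕ Fin n) → K) →ₗ[K] K :=
  LinearMap.mk₂ K (fun x y => ∑ i, (x (Sum.inl i) * y (Sum.inr i) - x (Sum.inr i) * y (Sum.inl i)))
    (fun x y z => by
      simp only [Pi.add_apply]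
      rw [← Finset.sum_add_distrib]
      exact Finset.sum_congr rfl fun i _ => by ring)
    (fun c x y => by
      simp only [Pi.smul_apply, smul_eq_mul]
      rw [Finset.mul_sum]
      exact Finset.sum_congr rfl fun i _ => by ring)
    (fun x y z => by
      simp only [Pi.add_apply]
      rw [← Finset.sum_add_distrib]
      exact Finset.sum_congr rfl fun i _ => by ring)
    (fun c x y => by
      simp only [Pi.smul_apply, smul_eq_mul]
      rw [Finset.mul_sum]
      exact Finset.sum_congr rfl fun i _ => by ring)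

section

variable {n : ℕ} {K : Type*} [Field K]

lemma om_apply (x y : (Fin n ⊕ Fin n) → K) :
    om n K x y = ∑ i, (x (Sum.inl i) * y (Sum.inr i) - x (Sum.inr i) * y (Sum.inl i)) := rfl

lemma om_self (x : (Fin n ⊕ Fin n) → K) : om n K x x = 0 := by
  rw [om_apply]
  exact Finset.sum_eq_zero fun i _ => by ring

lemma om_swap (x y : (Fin n ⊕ Fin n) → K) : om n K x y = - om n K y x := by
  rw [om_apply, om_apply, ← Finset.sum_neg_distrib]
  exact Finset.sum_congr rfl fun i _ => by ring

end

section

variable {R K : Type*} [CommRing R] [IsDedekindDomain R] [Field K] [Algebra R K]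
  [IsFractionRing R K] {ι : Type*} [Fintype ι]

/-- The content of a vector: the fractional ideal generated by its coordinates. -/
def J (R : Type*) {K : Type*} [CommRing R] [Field K] [Algebra R K]
    [IsFractionRing R K] {ι : Type*} [Finite ι] (x : ι → K) : FractionalIdeal R⁰ K :=
  ⟨Submodule.span R (Set.range x), isFractional_of_fg (Submodule.fg_span (Set.finite_range x))⟩

omit [IsDedekindDomain R] in
lemma mem_J (x : ι → K) (i : ι) : x i ∈ J R x :=
  Submodule.subset_span ⟨i, rfl⟩

omit [IsDedekindDomain R] in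
lemma J_le {x : ι → K} {I : FractionalIdeal R⁰ K} : J R x ≤ I ↔ ∀ i, x i ∈ I := by
  constructor
  · intro h i
    exact h (mem_J x i)
  · intro h
    change Submodule.span R (Set.range x) ≤ (I : Submodule R K)
    rw [Submodule.span_le]
    rintro _ ⟨i, rfl⟩
    exact h i

omit [IsDedekindDomain R] in
lemma J_ne {x : ι → K} (hx : x ≠ 0) : J R x ≠ 0 := by
  intro h
  apply hx
  ext i
  have := mem_J (R := R) x i
  rw [h] at this
  simpa using this

omit [IsDedekindDomain R] in
lemma J_smul_le (c : K) (x : ι → K) : J R (c • x) ≤ spanSingleton R⁰ c * J R x := by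
  rw [J_le]
  intro i
  exact mul_mem_mul (mem_spanSingleton_self _ _) (mem_J x i)

omit [IsDedekindDomain R] in
lemma J_smul (c : K) (x : ι → K) : J R (c • x) = spanSingleton R⁰ c * J R x := by
  by_cases hc : c = 0
  · subst hc
    apply le_antisymm (J_smul_le 0 x)
    rw [spanSingleton_zero, zero_mul]
    exact zero_le _
  · apply le_antisymm (J_smul_le c x)
    have h1 : J R x ≤ spanSingleton R⁰ c⁻¹ * J R (c • x) := by
      have := J_smul_le (R := R) c⁻¹ (c • x)
      rwa [smul_smul, inv_mul_cancel₀ hc, one_smul] at this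
    calc spanSingleton R⁰ c * J R x ≤ spanSingleton R⁰ c * (spanSingleton R⁰ c⁻¹ * J R (c • x)) := by
          gcongr
      _ = J R (c • x) := by
          rw [← mul_assoc, spanSingleton_mul_spanSingleton, mul_inv_cancel₀ hc, spanSingleton_one,
            one_mul]

omit [IsDedekindDomain R] in
lemma J_add_le {x y : ι → K} {I : FractionalIdeal R⁰ K} (hx : J R x ≤ I) (hy : J R y ≤ I) :
    J R (x + y) ≤ I := by
  rw [J_le] at *
  intro i
  rw [Pi.add_apply, ← FractionalIdeal.mem_coe]
  exact add_mem (hx i) (hy i)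

omit [IsDedekindDomain R] in
lemma J_sum_le {α : Type*} (s : Finset α) (f : α → ι → K) {I : FractionalIdeal R⁰ K}
    (h : ∀ a ∈ s, J R (f a) ≤ I) : J R (∑ a ∈ s, f a) ≤ I := by
  rw [J_le]
  intro i
  rw [Finset.sum_apply, ← FractionalIdeal.mem_coe]
  exact Submodule.sum_mem _ fun a ha => J_le.1 (h a ha) i

omit [IsDedekindDomain R] in
lemma J_neg (x : ι → K) : J R (-x) = J R x := by
  have : -x = (-1 : K) • x := by simp
  rw [this, J_smul]
  have h1 : spanSingleton R⁰ (-1 : K) = 1 := by
    apply le_antisymm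
    · rw [spanSingleton_le_iff_mem, FractionalIdeal.mem_one_iff]
      exact ⟨-1, by simp⟩
    · rw [FractionalIdeal.one_le, mem_spanSingleton]
      exact ⟨-1, by simp⟩
  rw [h1, one_mul]

omit [IsDedekindDomain R] in
lemma J_sub_le {x y : ι → K} {I : FractionalIdeal R⁰ K} (hx : J R x ≤ I) (hy : J R y ≤ I) :
    J R (x - y) ≤ I := by
  rw [sub_eq_add_neg]
  exact J_add_le hx (by rwa [J_neg])

variable {n : ℕ}

omit [IsDedekindDomain R] in
lemma om_mem (x y : (Fin n ⊕ Fin n) → K) : om n K x y ∈ J R x * J R y := by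
  rw [om_apply, ← FractionalIdeal.mem_coe]
  exact Submodule.sum_mem _ fun i _ => sub_mem
    (mul_mem_mul (mem_J x _) (mem_J y _)) (mul_mem_mul (mem_J x _) (mem_J y _))

lemma exists_dual {v : (Fin n ⊕ Fin n) → K} (hv : v ≠ 0) :
    ∃ w, om n K v w = 1 ∧ J R w ≤ (J R v)⁻¹ := by
  let S : Submodule R K :=
    { carrier := {a | ∃ w : (Fin n ⊕ Fin n) → K, om n K v w = a ∧ J R w ≤ (J R v)⁻¹}
      add_mem' := by
        rintro a b ⟨w, rfl, h1⟩ ⟨w', rfl, h2⟩
        exact ⟨w + w', map_add _ _ _, J_add_le h1 h2⟩
      zero_mem' := ⟨0, map_zero _, by rw [J_le]; intro i; exact zero_mem _⟩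
      smul_mem' := by
        rintro r a ⟨w, rfl, h1⟩
        refine ⟨algebraMap R K r • w, by rw [map_smul, smul_eq_mul, ← Algebra.smul_def], ?_⟩
        rw [J_le] at h1 ⊢
        intro i
        have : (algebraMap R K r • w) i = r • w i := by
          rw [Pi.smul_apply, smul_eq_mul, ← Algebra.smul_def]
        rw [this, ← FractionalIdeal.mem_coe]
        exact Submodule.smul_mem _ _ (h1 i) }
  have key : ∀ (i : Fin n ⊕ Fin n) (a : K), a ∈ (J R v)⁻¹ → v i * a ∈ S := by
    intro i a ha
    have hna : -a ∈ (J R v)⁻¹ := by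
      rw [← FractionalIdeal.mem_coe] at ha ⊢
      exact neg_mem ha
    classical
    rcases i with i | i
    · refine ⟨Pi.single (Sum.inr i) a, ?_, ?_⟩
      · rw [om_apply, Finset.sum_eq_single i]
        · simp
        · intro b _ hb
          simp [hb]
        · simp
      · rw [J_le]
        intro j
        rw [Pi.single_apply]
        split_ifs
        · exact ha
        · exact zero_mem _
    · refine ⟨Pi.single (Sum.inl i) (-a), ?_, ?_⟩
      · rw [om_apply, Finset.sum_eq_single i]
        · simp
        · intro b _ hb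
          simp [hb]
        · simp
      · rw [J_le]
        intro j
        rw [Pi.single_apply]
        split_ifs
        · exact hna
        · exact zero_mem _
  have h1 : ((J R v * (J R v)⁻¹ : FractionalIdeal R⁰ K) : Submodule R K) ≤ S := by
    rw [coe_mul, Submodule.mul_le]
    intro x hx y hy
    change x ∈ Submodule.span R (Set.range v) at hx
    induction hx using Submodule.span_induction with
    | mem x hx =>
      obtain ⟨i, rfl⟩ := hx
      exact key i y hy
    | zero => rw [zero_mul]; exact S.zero_mem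
    | add x z _ _ h1 h2 => rw [add_mul]; exact S.add_mem h1 h2
    | smul r x _ h1 => rw [smul_mul_assoc]; exact S.smul_mem r h1
  rw [mul_inv_cancel₀ (J_ne hv)] at h1
  exact h1 (one_mem_one R⁰)

/-- An adapted system of length `m`: symplectic vectors `v i`, `w i` (`i < m`) such that the
content of `w i` is inverse to the content of `v i`. -/
structure Adp (R : Type*) {K : Type*} [CommRing R] [IsDedekindDomain R] [Field K] [Algebra R K]
    [IsFractionRing R K] {n : ℕ} (m : ℕ) (v w : ℕ → (Fin n ⊕ Fin n) → K) : Prop where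
  vv : ∀ i < m, ∀ j < m, om n K (v i) (v j) = 0
  ww : ∀ i < m, ∀ j < m, om n K (w i) (w j) = 0
  vw : ∀ i < m, ∀ j < m, om n K (v i) (w j) = if i = j then 1 else 0
  jw : ∀ i < m, J R (w i) ≤ (J R (v i))⁻¹

variable {m : ℕ} {v w : ℕ → (Fin n ⊕ Fin n) → K}

lemma Adp.wv (h : Adp R m v w) : ∀ i < m, ∀ j < m, om n K (w i) (v j) = if j = i then -1 else 0 := by
  intro i hi j hj
  rw [om_swap, h.vw j hj i hi]
  split_ifs <;> simp

lemma Adp.ne (h : Adp R m v w) {i : ℕ} (hi : i < m) : v i ≠ 0 := by
  intro h0
  have := h.vw i hi i hi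
  rw [h0] at this
  simp at this

lemma Adp.coef (h : Adp R m v w) {i : ℕ} (hi : i < m) (x : (Fin n ⊕ Fin n) → K) :
    J R (om n K x (w i) • v i) ≤ J R x ∧ J R (om n K (v i) x • w i) ≤ J R x := by
  have h0 := J_ne (R := R) (h.ne hi)
  constructor
  · rw [J_smul]
    calc spanSingleton R⁰ (om n K x (w i)) * J R (v i) ≤ (J R x * J R (w i)) * J R (v i) := by
          gcongr
          exact spanSingleton_le_iff_mem.2 (om_mem _ _)
      _ ≤ (J R x * (J R (v i))⁻¹) * J R (v i) := by
          gcongr
          exact h.jw i hi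
      _ = J R x := by rw [mul_assoc, inv_mul_cancel₀ h0, mul_one]
  · rw [J_smul]
    calc spanSingleton R⁰ (om n K (v i) x) * J R (w i) ≤ (J R (v i) * J R x) * J R (w i) := by
          gcongr
          exact spanSingleton_le_iff_mem.2 (om_mem _ _)
      _ ≤ (J R (v i) * J R x) * (J R (v i))⁻¹ := by
          gcongr
          exact h.jw i hi
      _ = J R x := by rw [mul_comm (J R (v i)), mul_assoc, mul_inv_cancel₀ h0, mul_one]

/-- Extension of an adapted system by a given vector. -/
lemma Adp.extend (h : Adp R m v w) {x : (Fin n ⊕ Fin n) → K} (hx : x ≠ 0)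
    (hxv : ∀ i < m, om n K x (v i) = 0) (hxw : ∀ i < m, om n K x (w i) = 0) :
    ∃ y, Adp R (m + 1) (Function.update v m x) (Function.update w m y) := by
  obtain ⟨w', h1, h2⟩ := exists_dual (R := R) hx
  set y := w' - ∑ i ∈ Finset.range m, (om n K w' (w i) • v i + om n K (v i) w' • w i) with hy
  have hyw : ∀ j < m, om n K y (w j) = 0 := by
    intro j hj
    rw [hy, map_sub, LinearMap.sub_apply, map_sum, LinearMap.sum_apply,
      Finset.sum_eq_single_of_mem j (Finset.mem_range.2 hj)]
    · simp [h.vw j hj j hj, h.ww j hj j hj]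
    · intro b hb hbj
      have hb' := Finset.mem_range.1 hb
      simp [h.vw b hb' j hj, h.ww b hb' j hj, hbj]
  have hyv : ∀ j < m, om n K y (v j) = 0 := by
    intro j hj
    rw [hy, map_sub, LinearMap.sub_apply, map_sum, LinearMap.sum_apply,
      Finset.sum_eq_single_of_mem j (Finset.mem_range.2 hj)]
    · simp [h.wv j hj j hj, h.vv j hj j hj]
      rw [om_swap (v j) w']; ring
    · intro b hb hbj
      have hb' := Finset.mem_range.1 hb
      simp [h.wv b hb' j hj, h.vv b hb' j hj, Ne.symm hbj]
  have hxy : om n K x y = 1 := by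
    rw [hy, map_sub, h1, map_sum, Finset.sum_eq_zero, sub_zero]
    intro i hi
    have hi' := Finset.mem_range.1 hi
    simp [hxv i hi', hxw i hi']
  have hJ : J R y ≤ (J R x)⁻¹ := by
    rw [hy]
    apply J_sub_le h2
    apply J_sum_le
    intro i hi
    have hi' := Finset.mem_range.1 hi
    exact J_add_le ((h.coef hi' w').1.trans h2) ((h.coef hi' w').2.trans h2)
  refine ⟨y, ?_, ?_, ?_, ?_⟩
  · intro i hi j hj
    rcases Nat.lt_succ_iff_lt_or_eq.1 hi with hi | rfl <;>
      rcases Nat.lt_succ_iff_lt_or_eq.1 hj with hj | rfl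
    · rw [Function.update_of_ne hi.ne, Function.update_of_ne hj.ne, h.vv i hi j hj]
    · rw [Function.update_of_ne hi.ne, Function.update_self, om_swap, hxv i hi, neg_zero]
    · rw [Function.update_of_ne hj.ne, Function.update_self, hxv j hj]
    · rw [Function.update_self, om_self]
  · intro i hi j hj
    rcases Nat.lt_succ_iff_lt_or_eq.1 hi with hi | rfl <;>
      rcases Nat.lt_succ_iff_lt_or_eq.1 hj with hj | rfl
    · rw [Function.update_of_ne hi.ne, Function.update_of_ne hj.ne, h.ww i hi j hj]
    · rw [Function.update_of_ne hi.ne, Function.update_self, om_swap, hyw i hi, neg_zero]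
    · rw [Function.update_of_ne hj.ne, Function.update_self, hyw j hj]
    · rw [Function.update_self, om_self]
  · intro i hi j hj
    rcases Nat.lt_succ_iff_lt_or_eq.1 hi with hi | rfl <;>
      rcases Nat.lt_succ_iff_lt_or_eq.1 hj with hj | rfl
    · rw [Function.update_of_ne hi.ne, Function.update_of_ne hj.ne, h.vw i hi j hj]
    · rw [Function.update_of_ne hi.ne, Function.update_self, om_swap, hyv i hi, neg_zero,
        if_neg hi.ne]
    · rw [Function.update_of_ne hj.ne, Function.update_self, hxw j hj, if_neg hj.ne']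
    · rw [Function.update_self, Function.update_self, hxy, if_pos rfl]
  · intro i hi
    rcases Nat.lt_succ_iff_lt_or_eq.1 hi with hi | rfl
    · rw [Function.update_of_ne hi.ne, Function.update_of_ne hi.ne]
      exact h.jw i hi
    · rw [Function.update_self, Function.update_self]
      exact hJ

end

end Pool.Agent.R647.Chev
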