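import Pool.Agent.R647.Chev.Sp1

/-!
Vectors with prescribed content, Steinitz classes of isotropic subspaces.
-/

namespace Pool.Agent.R647.Chev

open scoped nonZeroDivisors
open FractionalIdeal

section

variable {R K : Type*} [CommRing R] [IsDedekindDomain R] [Field K] [Algebra R K]
  [IsFractionRing R K] {n : ℕ}

/-- A subspace of dimension at least two contains vectors of every content. -/
lemma exists_content {V : Submodule K ((Fin n ⊕ Fin n) → K)} (hV : 2 ≤ Module.finrank K V)
    {C : FractionalIdeal R⁰ K} (hC : C ≠ 0) : ∃ z ∈ V, J R z = C := by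
  have hV0 : V ≠ ⊥ := by
    rintro rfl
    simp at hV
  obtain ⟨v, hvV, hv⟩ := Submodule.exists_mem_ne_zero_of_ne_bot hV0
  obtain ⟨w, h1, h2⟩ := exists_dual (R := R) hv
  have hJv := J_ne (R := R) hv
  -- a vector in the kernel
  obtain ⟨v', hv'V, hv', h3⟩ : ∃ v' ∈ V, v' ≠ 0 ∧ om n K v' w = 0 := by
    let φ : V →ₗ[K] K := ((om n K).flip w).comp V.subtype
    have h4 : 1 ≤ Module.finrank K (LinearMap.ker φ) := by
      have h5 := LinearMap.finrank_range_add_finrank_ker φ
      have h6 : Module.finrank K (LinearMap.range φ) ≤ 1 := by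
        have := (LinearMap.range φ).finrank_le
        rwa [Module.finrank_self] at this
      omega
    have h7 : LinearMap.ker φ ≠ ⊥ := by
      intro h
      rw [h] at h4
      simp at h4
    obtain ⟨a, ha, ha0⟩ := Submodule.exists_mem_ne_zero_of_ne_bot h7
    refine ⟨a.1, a.2, fun h => ha0 (Subtype.ext h), ?_⟩
    exact ha
  have hJv' := J_ne (R := R) hv'
  have key : ∀ x y : K, J R (x • v + y • v') =
      spanSingleton R⁰ x * J R v + spanSingleton R⁰ y * J R v' := by
    intro x y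
    apply le_antisymm
    · apply J_add_le
      · rw [J_smul]; exact le_sup_left
      · rw [J_smul]; exact le_sup_right
    · have h5 : om n K (x • v + y • v') w = x := by
        rw [map_add, LinearMap.add_apply, map_smul, LinearMap.smul_apply, h1, map_smul,
          LinearMap.smul_apply, h3]
        simp
      have h6 : spanSingleton R⁰ x * J R v ≤ J R (x • v + y • v') := by
        calc spanSingleton R⁰ x * J R v ≤ (J R (x • v + y • v') * J R w) * J R v := by
              gcongr
              rw [spanSingleton_le_iff_mem]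
              have h9 := om_mem (R := R) (x • v + y • v') w
              rwa [h5] at h9
          _ ≤ (J R (x • v + y • v') * (J R v)⁻¹) * J R v := by gcongr
          _ = J R (x • v + y • v') := by rw [mul_assoc, inv_mul_cancel₀ hJv, mul_one]
      refine sup_le h6 ?_
      rw [← J_smul]
      have h7 : y • v' = (x • v + y • v') - x • v := by abel
      conv_lhs => rw [h7]
      exact J_sub_le le_rfl (by rw [J_smul]; exact h6)
  have hne : C * (J R v)⁻¹ ≠ 0 := mul_ne_zero hC (inv_ne_zero hJv)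
  obtain ⟨x, hx, hx0⟩ : ∃ x ∈ C * (J R v)⁻¹, x ≠ 0 := by
    by_contra hcon
    push Not at hcon
    apply hne
    rw [FractionalIdeal.eq_zero_iff]
    exact hcon
  have h8 : spanSingleton R⁰ x * J R v ≤ C := by
    calc spanSingleton R⁰ x * J R v ≤ (C * (J R v)⁻¹) * J R v := by
          gcongr
          exact spanSingleton_le_iff_mem.2 hx
      _ = C := by rw [mul_assoc, inv_mul_cancel₀ hJv, mul_one]
  obtain ⟨y, hy⟩ := IsDedekindDomain.exists_add_spanSingleton_mul_eq h8
    (mul_ne_zero (spanSingleton_ne_zero_iff.2 hx0) hJv) hJv'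
  exact ⟨x • v + y • v', V.add_mem (V.smul_mem _ hvV) (V.smul_mem _ hv'V), by rw [key, hy]⟩

/-- `IsSt V c`: the `R`-module `V ∩ R²ⁿ` is `⊕ 𝔞ᵢ bᵢ` for a `K`-basis `b` of `V` and fractional
ideals `𝔞ᵢ`, and `c` is the product of the ideal classes of the `𝔞ᵢ`. -/
def IsSt (R : Type*) {K : Type*} [CommRing R] [IsDedekindDomain R] [Field K] [Algebra R K]
    [IsFractionRing R K] {n : ℕ} (V : Submodule K ((Fin n ⊕ Fin n) → K)) (c : ClassGroup R) :
    Prop :=
  ∃ (r : ℕ) (b : Module.Basis (Fin r) K V) (a : Fin r → (FractionalIdeal R⁰ K)ˣ),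
    (∀ x : V, (∀ i, ∃ t : R, algebraMap R K t = (x : (Fin n ⊕ Fin n) → K) i) ↔
      ∀ i, b.repr x i ∈ (a i : FractionalIdeal R⁰ K)) ∧
    c = ∏ i, ClassGroup.mk K (a i)

lemma prod_mem' {α : Type*} (s : Finset α) (f : α → K) (I : α → FractionalIdeal R⁰ K)
    (h : ∀ a ∈ s, f a ∈ I a) : ∏ a ∈ s, f a ∈ ∏ a ∈ s, I a := by
  classical
  induction s using Finset.induction_on with
  | empty => rw [Finset.prod_empty, Finset.prod_empty]; exact one_mem_one R⁰
  | insert a s ha ih =>
    rw [Finset.prod_insert ha, Finset.prod_insert ha]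
    exact mul_mem_mul (h a (Finset.mem_insert_self _ _))
      (ih fun b hb => h b (Finset.mem_insert_of_mem hb))

lemma det_mem {r : ℕ} (P : Matrix (Fin r) (Fin r) K) (a b : Fin r → (FractionalIdeal R⁰ K)ˣ)
    (h : ∀ i j, P i j ∈ ((a i * (b j)⁻¹ : (FractionalIdeal R⁰ K)ˣ) : FractionalIdeal R⁰ K)) :
    P.det ∈ (((∏ i, a i) * (∏ i, b i)⁻¹ : (FractionalIdeal R⁰ K)ˣ) : FractionalIdeal R⁰ K) := by
  rw [Matrix.det_apply, ← FractionalIdeal.mem_coe]
  refine Submodule.sum_mem _ fun σ _ => ?_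
  have h1 : ∏ i, P (σ i) i ∈
      (((∏ i, a i) * (∏ i, b i)⁻¹ : (FractionalIdeal R⁰ K)ˣ) : FractionalIdeal R⁰ K) := by
    have h2 := prod_mem' Finset.univ (fun i => P (σ i) i)
      (fun i => ((a (σ i) * (b i)⁻¹ : (FractionalIdeal R⁰ K)ˣ) : FractionalIdeal R⁰ K))
      (fun i _ => h (σ i) i)
    have h3 : ∏ i, ((a (σ i) * (b i)⁻¹ : (FractionalIdeal R⁰ K)ˣ) : FractionalIdeal R⁰ K) =
        (((∏ i, a i) * (∏ i, b i)⁻¹ : (FractionalIdeal R⁰ K)ˣ) : FractionalIdeal R⁰ K) := by
      rw [← Units.coe_prod, Finset.prod_mul_distrib, Finset.prod_inv_distrib,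
        Equiv.prod_comp σ a]
    rwa [h3] at h2
  rw [← FractionalIdeal.mem_coe] at h1
  rcases Int.units_eq_one_or (Equiv.Perm.sign σ) with h4 | h4
  · rw [h4, one_smul]; exact h1
  · rw [h4]
    have : (-1 : ℤˣ) • ∏ i, P (σ i) i = - ∏ i, P (σ i) i := by
      rw [Units.neg_smul, one_smul]
    rw [this]
    exact neg_mem h1

lemma IsSt.unique {V : Submodule K ((Fin n ⊕ Fin n) → K)} {c c' : ClassGroup R}
    (h : IsSt R V c) (h' : IsSt R V c') : c = c' := by
  obtain ⟨r, b, a, h1, rfl⟩ := h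
  obtain ⟨r', b', a', h2, rfl⟩ := h'
  have hr : r = r' := by
    have e1 := Module.finrank_eq_card_basis b
    have e2 := Module.finrank_eq_card_basis b'
    simp at e1 e2
    omega
  subst hr
  have key : ∀ (b b' : Module.Basis (Fin r) K V) (a a' : Fin r → (FractionalIdeal R⁰ K)ˣ),
      (∀ x : V, (∀ i, ∃ t : R, algebraMap R K t = (x : (Fin n ⊕ Fin n) → K) i) ↔
        ∀ i, b.repr x i ∈ (a i : FractionalIdeal R⁰ K)) →
      (∀ x : V, (∀ i, ∃ t : R, algebraMap R K t = (x : (Fin n ⊕ Fin n) → K) i) ↔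
        ∀ i, b'.repr x i ∈ (a' i : FractionalIdeal R⁰ K)) →
      ∀ i j, b.toMatrix b' i j ∈
        ((a i * (a' j)⁻¹ : (FractionalIdeal R⁰ K)ˣ) : FractionalIdeal R⁰ K) := by
    intro b b' a a' h1 h2 i j
    have h3 : spanSingleton R⁰ (b.toMatrix b' i j) * (a' j : FractionalIdeal R⁰ K) ≤
        (a i : FractionalIdeal R⁰ K) := by
      intro x hx
      obtain ⟨y, hy, rfl⟩ := mem_singleton_mul.1 hx
      have h4 : ∀ k, b'.repr (y • b' j) k ∈ (a' k : FractionalIdeal R⁰ K) := by
        intro k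
        rw [map_smul, Module.Basis.repr_self, Finsupp.smul_apply, Finsupp.single_apply]
        split_ifs with hjk
        · subst hjk; simpa using hy
        · rw [smul_zero]; exact FractionalIdeal.zero_mem _
      have h5 := (h1 _).1 ((h2 _).2 h4) i
      rw [map_smul, Finsupp.smul_apply, smul_eq_mul, mul_comm] at h5
      exact h5
    have h6 : spanSingleton R⁰ (b.toMatrix b' i j) ≤
        ((a i * (a' j)⁻¹ : (FractionalIdeal R⁰ K)ˣ) : FractionalIdeal R⁰ K) := by
      calc spanSingleton R⁰ (b.toMatrix b' i j) =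
            (spanSingleton R⁰ (b.toMatrix b' i j) * (a' j : FractionalIdeal R⁰ K)) *
              (((a' j)⁻¹ : (FractionalIdeal R⁰ K)ˣ) : FractionalIdeal R⁰ K) := by
            rw [mul_assoc, ← Units.val_mul, mul_inv_cancel, Units.val_one, mul_one]
        _ ≤ (a i : FractionalIdeal R⁰ K) *
              (((a' j)⁻¹ : (FractionalIdeal R⁰ K)ˣ) : FractionalIdeal R⁰ K) := by gcongr
        _ = _ := by rw [Units.val_mul]
    exact spanSingleton_le_iff_mem.1 h6
  have d1 := det_mem (b.toMatrix b') a a' (key b b' a a' h1 h2)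
  have d2 := det_mem (b'.toMatrix b) a' a (key b' b a' a h2 h1)
  have hdet : (b.toMatrix b').det * (b'.toMatrix b).det = 1 := by
    rw [← Matrix.det_mul, Module.Basis.toMatrix_mul_toMatrix_flip, Matrix.det_one]
  set D : (FractionalIdeal R⁰ K)ˣ := (∏ i, a i) * (∏ i, a' i)⁻¹ with hD
  have hD' : (∏ i, a' i) * (∏ i, a i)⁻¹ = D⁻¹ := by rw [hD]; simp
  rw [hD'] at d2
  have hne : (b.toMatrix b').det ≠ 0 := left_ne_zero_of_mul_eq_one hdet
  have e1 : (D : FractionalIdeal R⁰ K) = spanSingleton R⁰ (b.toMatrix b').det := by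
    apply le_antisymm
    · have h3 : spanSingleton R⁰ (b'.toMatrix b).det ≤
        ((D⁻¹ : (FractionalIdeal R⁰ K)ˣ) : FractionalIdeal R⁰ K) := spanSingleton_le_iff_mem.2 d2
      calc (D : FractionalIdeal R⁰ K) = D * spanSingleton R⁰ ((b.toMatrix b').det *
            (b'.toMatrix b).det) := by rw [hdet, spanSingleton_one, mul_one]
        _ = (D * spanSingleton R⁰ (b'.toMatrix b).det) * spanSingleton R⁰ (b.toMatrix b').det := by
            rw [← spanSingleton_mul_spanSingleton]; ring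
        _ ≤ (D * ((D⁻¹ : (FractionalIdeal R⁰ K)ˣ) : FractionalIdeal R⁰ K)) *
            spanSingleton R⁰ (b.toMatrix b').det := by gcongr
        _ = _ := by rw [← Units.val_mul, mul_inv_cancel, Units.val_one, one_mul]
    · exact spanSingleton_le_iff_mem.2 d1
  have e2 : ClassGroup.mk K D = 1 := by
    have := (cl_eq_one_iff (R := R) (K := K) (J := (D : FractionalIdeal R⁰ K)) D.ne_zero).2
      ⟨_, hne, e1⟩
    rw [cl_of_ne D.ne_zero] at this
    rw [← this]
    congr 1
    ext
    rfl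
  rw [hD, map_mul, map_inv, map_prod, map_prod] at e2
  exact mul_inv_eq_one.1 e2

end

end Pool.Agent.R647.Chev
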