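import Pool.Agent.R647.Chev.Sp2

/-!
Adapted bases for isotropic flags with prescribed contents.
-/

namespace Pool.Agent.R647.Chev

open scoped nonZeroDivisors
open FractionalIdeal

section

variable {R K : Type*} [CommRing R] [IsDedekindDomain R] [Field K] [Algebra R K]
  [IsFractionRing R K] {n : ℕ} {m : ℕ} {v w : ℕ → (Fin n ⊕ Fin n) → K}

/-- The span of the first `m` vectors. -/
abbrev spn {K : Type*} [Field K] {n : ℕ} (m : ℕ) (v : ℕ → (Fin n ⊕ Fin n) → K) :
    Submodule K ((Fin n ⊕ Fin n) → K) :=
  Submodule.span K (Set.range fun i : Fin m => v i)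

lemma Adp.li (h : Adp R m v w) : LinearIndependent K fun i : Fin m => v i := by
  rw [Fintype.linearIndependent_iff]
  intro g hg i
  have h1 := congrArg (fun x => om n K x (w i)) hg
  simp only [map_sum, LinearMap.sum_apply, map_smul, LinearMap.smul_apply, smul_eq_mul, map_zero,
    LinearMap.zero_apply] at h1
  rw [Finset.sum_eq_single i] at h1
  · rw [h.vw i i.2 i i.2, if_pos rfl, mul_one] at h1
    exact h1
  · intro b _ hb
    rw [h.vw b b.2 i i.2, if_neg (fun h0 => hb (Fin.ext h0)), mul_zero]
  · simp

lemma Adp.finrank_spn (h : Adp R m v w) : Module.finrank K (spn m v) = m := by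
  rw [spn, finrank_span_eq_card h.li, Fintype.card_fin]

lemma Adp.restrict (h : Adp R m v w) {k : ℕ} (hk : k ≤ m) : Adp R k v w :=
  ⟨fun i hi j hj => h.vv i (by omega) j (by omega), fun i hi j hj => h.ww i (by omega) j (by omega),
    fun i hi j hj => h.vw i (by omega) j (by omega), fun i hi => h.jw i (by omega)⟩

lemma Adp.isotropic (h : Adp R m v w) : ∀ x ∈ spn m v, ∀ y ∈ spn m v, om n K x y = 0 := by
  intro x hx y hy
  rw [spn] at hx hy
  induction hx using Submodule.span_induction with
  | mem x hx =>
    obtain ⟨i, rfl⟩ := hx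
    induction hy using Submodule.span_induction with
    | mem y hy =>
      obtain ⟨j, rfl⟩ := hy
      exact h.vv i i.2 j j.2
    | zero => simp
    | add a b _ _ h1 h2 => rw [map_add, h1, h2, add_zero]
    | smul c a _ h1 => rw [map_smul, h1, smul_zero]
  | zero => simp
  | add a b _ _ h1 h2 => rw [map_add, LinearMap.add_apply, h1, h2, add_zero]
  | smul c a _ h1 => rw [map_smul, LinearMap.smul_apply, h1, smul_zero]

omit [IsDedekindDomain R] in
lemma int_iff_J (x : (Fin n ⊕ Fin n) → K) :
    (∀ i, ∃ t : R, algebraMap R K t = x i) ↔ J R x ≤ 1 := by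
  rw [J_le]
  exact forall_congr' fun i => (FractionalIdeal.mem_one_iff R⁰).symm

/-- The Steinitz class of the span of an adapted system. -/
lemma Adp.isSt (h : Adp R m v w) :
    IsSt R (spn m v) (∏ i ∈ Finset.range m, (cl (J R (v i)))⁻¹) := by
  let b : Module.Basis (Fin m) K (spn m v) := Module.Basis.span h.li
  have hrepr : ∀ (x : spn m v) (i : Fin m), b.repr x i = om n K (x : (Fin n ⊕ Fin n) → K) (w i) := by
    intro x i
    have h1 : (x : (Fin n ⊕ Fin n) → K) = ∑ j, b.repr x j • v j := by
      have h2 := b.sum_repr x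
      have h3 := congrArg Subtype.val h2
      rw [← h3]
      rw [Submodule.coe_sum]
      refine Finset.sum_congr rfl fun j _ => ?_
      rw [Submodule.coe_smul]
      congr 1
      exact congrArg Subtype.val (Module.Basis.span_apply h.li j)
    conv_rhs => rw [h1]
    simp only [map_sum, LinearMap.sum_apply, map_smul, LinearMap.smul_apply, smul_eq_mul]
    rw [Finset.sum_eq_single i]
    · rw [h.vw i i.2 i i.2, if_pos rfl, mul_one]
    · intro b _ hb
      rw [h.vw b b.2 i i.2, if_neg (fun h0 => hb (Fin.ext h0)), mul_zero]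
    · simp
  refine ⟨m, b, fun i => (Units.mk0 (J R (v i)) (J_ne (h.ne i.2)))⁻¹, ?_, ?_⟩
  · intro x
    rw [int_iff_J]
    constructor
    · intro hx i
      rw [hrepr]
      have h1 : om n K (x : (Fin n ⊕ Fin n) → K) (w i) ∈ J R (x : (Fin n ⊕ Fin n) → K) * J R (w i) :=
        om_mem _ _
      have h2 : J R (x : (Fin n ⊕ Fin n) → K) * J R (w i) ≤ (J R (v i))⁻¹ := by
        calc J R (x : (Fin n ⊕ Fin n) → K) * J R (w i) ≤ 1 * (J R (v i))⁻¹ := by
              gcongr
              exact h.jw i i.2
          _ = _ := one_mul _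
      have h3 := h2 h1
      rw [Units.val_inv_eq_inv_val, Units.val_mk0]
      exact h3
    · intro hx
      have h1 : (x : (Fin n ⊕ Fin n) → K) = ∑ j, b.repr x j • v j := by
        have h2 := b.sum_repr x
        have h3 := congrArg Subtype.val h2
        rw [← h3]
        rw [Submodule.coe_sum]
        refine Finset.sum_congr rfl fun j _ => ?_
        rw [Submodule.coe_smul]
        congr 1
        exact congrArg Subtype.val (Module.Basis.span_apply h.li j)
      rw [h1]
      apply J_sum_le
      intro j _
      rw [J_smul]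
      have h2 := hx j
      rw [Units.val_inv_eq_inv_val, Units.val_mk0] at h2
      calc spanSingleton R⁰ (b.repr x j) * J R (v j) ≤ (J R (v j))⁻¹ * J R (v j) := by
            gcongr
            exact spanSingleton_le_iff_mem.2 h2
        _ = 1 := inv_mul_cancel₀ (J_ne (h.ne j.2))
        _ ≤ 1 := le_rfl
  · rw [Finset.prod_range]
    refine Finset.prod_congr rfl fun i _ => ?_
    rw [map_inv, cl_of_ne (J_ne (h.ne i.2))]

lemma spn_congr {v' : ℕ → (Fin n ⊕ Fin n) → K} (h : ∀ i < m, v i = v' i) :
    spn m v = spn m v' := by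
  rw [spn, spn]
  congr 2
  ext i
  rw [h i i.2]

/-- The subspace where the next vector is chosen. -/
def perp {K : Type*} [Field K] {n : ℕ} (m : ℕ) (w : ℕ → (Fin n ⊕ Fin n) → K) :
    ((Fin n ⊕ Fin n) → K) →ₗ[K] (Fin m → K) :=
  LinearMap.pi fun i => (om n K).flip (w i)

lemma perp_apply (m : ℕ) (w : ℕ → (Fin n ⊕ Fin n) → K) (x : (Fin n ⊕ Fin n) → K) (i : Fin m) :
    perp m w x i = om n K x (w i) := rfl

lemma finrank_ker_ge {V : Type*} [AddCommGroup V] [Module K V] [FiniteDimensional K V] {ι : Type*}
    [Fintype ι] (φ : V →ₗ[K] (ι → K)) :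
    Module.finrank K V ≤ Module.finrank K (LinearMap.ker φ) + Fintype.card ι := by
  have h1 := LinearMap.finrank_range_add_finrank_ker φ
  have h2 := (LinearMap.range φ).finrank_le
  rw [Module.finrank_fintype_fun_eq_card] at h2
  omega

lemma spn_succ (m : ℕ) (v : ℕ → (Fin n ⊕ Fin n) → K) (V : Submodule K ((Fin n ⊕ Fin n) → K))
    (h : ∀ i < m + 1, v i ∈ V) : spn (m + 1) v ≤ V := by
  rw [spn, Submodule.span_le]
  rintro _ ⟨i, rfl⟩
  exact h i i.2

theorem adapted (F : Set (Submodule K ((Fin n ⊕ Fin n) → K))) (hch : IsChain (· ≤ ·) F)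
    (hiso : ∀ V ∈ F, ∀ x ∈ V, ∀ y ∈ V, om n K x y = 0)
    (C : ℕ → FractionalIdeal R⁰ K) (hC : ∀ j, C j ≠ 0)
    (hst : ∀ V ∈ F, IsSt R V (∏ j ∈ Finset.range (Module.finrank K V), (cl (C j))⁻¹)) :
    ∀ m, m ≤ n → ∃ v w : ℕ → (Fin n ⊕ Fin n) → K, Adp R m v w ∧ (∀ j < m, J R (v j) = C j) ∧
      (∀ V ∈ F, Module.finrank K V ≤ m → V = spn (Module.finrank K V) v) ∧
      (∀ V ∈ F, m ≤ Module.finrank K V → ∀ j < m, v j ∈ V) := by
  intro m
  induction m with
  | zero =>
    intro _
    refine ⟨fun _ => 0, fun _ => 0, ⟨by simp, by simp, by simp, by simp⟩, by simp, ?_, by simp⟩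
    intro V _ hV
    have h0 : Module.finrank K V = 0 := by omega
    rw [h0, spn]
    have : V = ⊥ := Submodule.finrank_eq_zero.1 h0
    rw [this]
    simp
  | succ m ih =>
    intro hm
    obtain ⟨v, w, hA, hJ, hF1, hF2⟩ := ih (by omega)
    -- it is enough to find the next vector
    suffices hx : ∃ x, x ≠ 0 ∧ J R x = C m ∧ (∀ i < m, om n K x (v i) = 0) ∧
        (∀ i < m, om n K x (w i) = 0) ∧ ∀ V ∈ F, m < Module.finrank K V → x ∈ V by
      obtain ⟨x, hx0, hxJ, hxv, hxw, hxF⟩ := hx
      obtain ⟨y, hy⟩ := hA.extend hx0 hxv hxw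
      have hsame : ∀ i < m, v i = Function.update v m x i := fun i hi => by
        rw [Function.update_of_ne hi.ne]
      refine ⟨_, _, hy, ?_, ?_, ?_⟩
      · intro j hj
        rcases Nat.lt_succ_iff_lt_or_eq.1 hj with hj | rfl
        · rw [← hsame j hj, hJ j hj]
        · rw [Function.update_self, hxJ]
      · intro V hV hle
        rcases Nat.lt_or_ge m (Module.finrank K V) with h1 | h1
        · have h2 : Module.finrank K V = m + 1 := by omega
          have h3 : spn (m + 1) (Function.update v m x) ≤ V := by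
            apply spn_succ
            intro i hi
            rcases Nat.lt_succ_iff_lt_or_eq.1 hi with hi | rfl
            · rw [← hsame i hi]; exact hF2 V hV h1.le i hi
            · rw [Function.update_self]; exact hxF V hV h1
          rw [h2]
          symm
          apply Submodule.eq_of_le_of_finrank_eq h3
          rw [hy.finrank_spn, h2]
        · rw [← spn_congr (m := Module.finrank K V) (v := v) fun i hi => hsame i (by omega)]
          exact hF1 V hV h1
      · intro V hV hle j hj
        rcases Nat.lt_succ_iff_lt_or_eq.1 hj with hj | rfl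
        · rw [← hsame j hj]; exact hF2 V hV (by omega) j hj
        · rw [Function.update_self]; exact hxF V hV (by omega)
    by_cases hcase : ∃ V ∈ F, m < Module.finrank K V
    · -- choose the smallest such member
      classical
      obtain ⟨V, ⟨hV, hmV⟩, hmin⟩ : ∃ V, (V ∈ F ∧ m < Module.finrank K V) ∧
          ∀ V', (V' ∈ F ∧ m < Module.finrank K V') → Module.finrank K V ≤ Module.finrank K V' := by
        obtain ⟨V0, hV0, h0⟩ := hcase
        have hex : ∃ k, ∃ V, (V ∈ F ∧ m < Module.finrank K V) ∧ Module.finrank K V = k :=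
          ⟨_, V0, ⟨hV0, h0⟩, rfl⟩
        obtain ⟨V, h1, h2⟩ := Nat.find_spec hex
        exact ⟨V, h1, fun V' h' => by rw [h2]; exact Nat.find_min' hex ⟨V', h', rfl⟩⟩
      have hsub : ∀ V' ∈ F, m < Module.finrank K V' → V ≤ V' := by
        intro V' hV' hmV'
        rcases eq_or_ne V V' with rfl | hne
        · exact le_rfl
        rcases hch hV hV' hne with h | h
        · exact h
        · have := Submodule.eq_of_le_of_finrank_le h (hmin V' ⟨hV', hmV'⟩)
          exact this.ge
      -- the kernel
      let φ : V →ₗ[K] (Fin m → K) := (perp m w).comp V.subtype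
      let U : Submodule K ((Fin n ⊕ Fin n) → K) := (LinearMap.ker φ).map V.subtype
      have hUV : ∀ x ∈ U, x ∈ V := by
        rintro _ ⟨x, _, rfl⟩; exact x.2
      have hUw : ∀ x ∈ U, ∀ i < m, om n K x (w i) = 0 := by
        rintro _ ⟨x, hx, rfl⟩ i hi
        exact congrFun (LinearMap.mem_ker.1 hx) ⟨i, hi⟩
      have hUv : ∀ x ∈ U, ∀ i < m, om n K x (v i) = 0 := by
        intro x hx i hi
        exact hiso V hV x (hUV x hx) _ (hF2 V hV hmV.le i hi)
      have hdim : Module.finrank K U = Module.finrank K (LinearMap.ker φ) :=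
        Submodule.finrank_map_subtype_eq V (LinearMap.ker φ)
      have hge := finrank_ker_ge φ
      rw [Fintype.card_fin] at hge
      rcases Nat.lt_or_ge (m + 1) (Module.finrank K V) with hbig | hsmall
      · obtain ⟨x, hxU, hxJ⟩ := exists_content (V := U) (by omega) (hC m)
        refine ⟨x, ?_, hxJ, hUv x hxU, hUw x hxU, fun V' hV' h' => hsub V' hV' h' (hUV x hxU)⟩
        rintro rfl
        apply hC m
        rw [← hxJ]
        apply le_antisymm _ (zero_le _)
        rw [J_le]; intro i; exact FractionalIdeal.zero_mem _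
      · have hVm : Module.finrank K V = m + 1 := by omega
        have hU0 : U ≠ ⊥ := by
          intro h
          have h1 : Module.finrank K U = 0 := by rw [h]; simp
          omega
        obtain ⟨x, hxU, hx0⟩ := Submodule.exists_mem_ne_zero_of_ne_bot hU0
        obtain ⟨y, hy⟩ := hA.extend hx0 (hUv x hxU) (hUw x hxU)
        have hsame : ∀ i < m, v i = Function.update v m x i := fun i hi => by
          rw [Function.update_of_ne hi.ne]
        have h3 : spn (m + 1) (Function.update v m x) = V := by
          apply Submodule.eq_of_le_of_finrank_eq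
          · apply spn_succ
            intro i hi
            rcases Nat.lt_succ_iff_lt_or_eq.1 hi with hi | rfl
            · rw [← hsame i hi]; exact hF2 V hV hmV.le i hi
            · rw [Function.update_self]; exact hUV x hxU
          · rw [hy.finrank_spn, hVm]
        have h4 := hy.isSt
        rw [h3] at h4
        have h5 := h4.unique (hst V hV)
        rw [hVm, Finset.prod_range_succ, Finset.prod_range_succ, Function.update_self] at h5
        have h6 : ∏ i ∈ Finset.range m, (cl (J R (Function.update v m x i)))⁻¹ =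
            ∏ i ∈ Finset.range m, (cl (C i))⁻¹ := by
          refine Finset.prod_congr rfl fun i hi => ?_
          rw [← hsame i (Finset.mem_range.1 hi), hJ i (Finset.mem_range.1 hi)]
        rw [h6] at h5
        have h7 : cl (J R x) = cl (C m) := inv_injective (mul_left_cancel h5)
        have hJx := J_ne (R := R) hx0
        have h8 : cl (C m * (J R x)⁻¹) = 1 := by
          rw [cl_mul (hC m) (inv_ne_zero hJx), cl_inv hJx, h7, mul_inv_cancel]
        obtain ⟨c, hc, h9⟩ := (cl_eq_one_iff (mul_ne_zero (hC m) (inv_ne_zero hJx))).1 h8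
        refine ⟨c • x, smul_ne_zero hc hx0, ?_, ?_, ?_, ?_⟩
        · rw [J_smul, ← h9, mul_assoc, inv_mul_cancel₀ hJx, mul_one]
        · exact hUv _ (U.smul_mem _ hxU)
        · exact hUw _ (U.smul_mem _ hxU)
        · intro V' hV' h'
          exact V'.smul_mem _ (hsub V' hV' h' (hUV x hxU))
    · push Not at hcase
      let φ : ((Fin n ⊕ Fin n) → K) →ₗ[K] (Fin m ⊕ Fin m → K) :=
        LinearMap.pi (Sum.elim (fun i => (om n K).flip (v i)) (fun i => (om n K).flip (w i)))
      have hge := finrank_ker_ge φ
      rw [Module.finrank_fintype_fun_eq_card, Fintype.card_sum, Fintype.card_sum,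
        Fintype.card_fin, Fintype.card_fin] at hge
      obtain ⟨x, hxU, hxJ⟩ := exists_content (V := LinearMap.ker φ) (by omega) (hC m)
      refine ⟨x, ?_, hxJ, ?_, ?_, fun V hV h => absurd h (by have := hcase V hV; omega)⟩
      · rintro rfl
        apply hC m
        rw [← hxJ]
        apply le_antisymm _ (zero_le _)
        rw [J_le]; intro i; exact FractionalIdeal.zero_mem _
      · intro i hi
        exact congrFun (LinearMap.mem_ker.1 hxU) (Sum.inl ⟨i, hi⟩)
      · intro i hi
        exact congrFun (LinearMap.mem_ker.1 hxU) (Sum.inr ⟨i, hi⟩)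

end

end Pool.Agent.R647.Chev
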