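import Pool.Agent.R647.Chev.Sp3

/-!
Adapted bases and integral symplectic matrices.
-/

namespace Pool.Agent.R647.Chev

open scoped nonZeroDivisors
open FractionalIdeal

section

variable {R K : Type*} [CommRing R] [IsDedekindDomain R] [Field K] [Algebra R K]
  [IsFractionRing R K] {n : ℕ} {m : ℕ} {v w v' w' : ℕ → (Fin n ⊕ Fin n) → K}

/-- Combination of an adapted system. -/
def rec' {K : Type*} [Field K] {n : ℕ} (m : ℕ) (v w : ℕ → (Fin n ⊕ Fin n) → K) :
    (Fin m ⊕ Fin m → K) →ₗ[K] ((Fin n ⊕ Fin n) → K) where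
  toFun a := ∑ i : Fin m, (a (Sum.inl i) • v i + a (Sum.inr i) • w i)
  map_add' a b := by
    rw [← Finset.sum_add_distrib]
    refine Finset.sum_congr rfl fun i _ => ?_
    simp only [Pi.add_apply, add_smul]
    abel
  map_smul' c a := by
    rw [RingHom.id_apply, Finset.smul_sum]
    refine Finset.sum_congr rfl fun i _ => ?_
    simp only [Pi.smul_apply, smul_add, smul_smul, smul_eq_mul]

/-- Coordinates with respect to an adapted system. -/
def crd {K : Type*} [Field K] {n : ℕ} (m : ℕ) (v w : ℕ → (Fin n ⊕ Fin n) → K) :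
    ((Fin n ⊕ Fin n) → K) →ₗ[K] (Fin m ⊕ Fin m → K) :=
  LinearMap.pi (Sum.elim (fun i => (om n K).flip (w i)) (fun i => om n K (v i)))

lemma rec'_apply (m : ℕ) (v w : ℕ → (Fin n ⊕ Fin n) → K) (a : Fin m ⊕ Fin m → K) :
    rec' m v w a = ∑ i : Fin m, (a (Sum.inl i) • v i + a (Sum.inr i) • w i) := rfl

lemma crd_inl (m : ℕ) (v w : ℕ → (Fin n ⊕ Fin n) → K) (x : (Fin n ⊕ Fin n) → K) (i : Fin m) :
    crd m v w x (Sum.inl i) = om n K x (w i) := rfl

lemma crd_inr (m : ℕ) (v w : ℕ → (Fin n ⊕ Fin n) → K) (x : (Fin n ⊕ Fin n) → K) (i : Fin m) :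
    crd m v w x (Sum.inr i) = om n K (v i) x := rfl

lemma Adp.om_rec (h : Adp R m v w) (a : Fin m ⊕ Fin m → K) (j : Fin m) :
    om n K (rec' m v w a) (w j) = a (Sum.inl j) ∧ om n K (v j) (rec' m v w a) = a (Sum.inr j) := by
  constructor
  · rw [rec'_apply, map_sum, LinearMap.sum_apply, Finset.sum_eq_single j]
    · simp [h.vw j j.2 j j.2, h.ww j j.2 j j.2]
    · intro b _ hb
      have hb' : (b : ℕ) ≠ j := fun h0 => hb (Fin.ext h0)
      simp [h.vw b b.2 j j.2, h.ww b b.2 j j.2, hb']
    · simp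
  · rw [rec'_apply, map_sum, Finset.sum_eq_single j]
    · simp [h.vw j j.2 j j.2, h.vv j j.2 j j.2]
    · intro b _ hb
      have hb' : (j : ℕ) ≠ b := fun h0 => hb (Fin.ext h0.symm)
      simp [h.vw j j.2 b b.2, h.vv j j.2 b b.2, hb']
    · simp

lemma Adp.crd_rec (h : Adp R m v w) (a : Fin m ⊕ Fin m → K) : crd m v w (rec' m v w a) = a := by
  ext i
  rcases i with i | i
  · exact (h.om_rec a i).1
  · exact (h.om_rec a i).2

lemma Adp.le (h : Adp R m v w) : m ≤ n := by
  have hinj : Function.Injective (rec' m v w) := fun a b hab => by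
    rw [← h.crd_rec a, hab, h.crd_rec b]
  have := LinearMap.finrank_le_finrank_of_injective hinj
  rw [Module.finrank_fintype_fun_eq_card, Module.finrank_fintype_fun_eq_card, Fintype.card_sum,
    Fintype.card_sum, Fintype.card_fin, Fintype.card_fin] at this
  omega

lemma Adp.rec_crd (h : Adp R n v w) (x : (Fin n ⊕ Fin n) → K) :
    rec' n v w (crd n v w x) = x := by
  have hsurj : Function.Surjective (crd n v w) := fun a => ⟨_, h.crd_rec a⟩
  have hinj : Function.Injective (crd n v w) := LinearMap.injective_iff_surjective.2 hsurj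
  exact hinj (h.crd_rec _)

lemma Adp.om_rec_rec (h : Adp R n v w) (a b : Fin n ⊕ Fin n → K) :
    om n K (rec' n v w a) (rec' n v w b) = om n K a b := by
  rw [om_apply a b]
  conv_lhs => rw [rec'_apply n v w a]
  rw [map_sum, LinearMap.sum_apply]
  refine Finset.sum_congr rfl fun i _ => ?_
  rw [map_add, LinearMap.add_apply, map_smul, LinearMap.smul_apply, map_smul,
    LinearMap.smul_apply, (h.om_rec b i).2, om_swap (w i), (h.om_rec b i).1]
  simp only [smul_eq_mul]
  ring

/-- The linear map given by a matrix over `R`. -/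
noncomputable def mv (K : Type*) {R : Type*} [CommRing R] [Field K] [Algebra R K] {n : ℕ}
    (G : Matrix (Fin n ⊕ Fin n) (Fin n ⊕ Fin n) R) :
    ((Fin n ⊕ Fin n) → K) →ₗ[K] ((Fin n ⊕ Fin n) → K) :=
  Matrix.toLin' (G.map (algebraMap R K))

omit [IsDedekindDomain R] [IsFractionRing R K] in
lemma mv_mul (G H : Matrix (Fin n ⊕ Fin n) (Fin n ⊕ Fin n) R) :
    mv K (G * H) = (mv K G).comp (mv K H) := by
  rw [mv, mv, mv, ← Matrix.toLin'_mul, ← Matrix.map_mul]

omit [IsDedekindDomain R] [IsFractionRing R K] in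
lemma mv_one : mv K (1 : Matrix (Fin n ⊕ Fin n) (Fin n ⊕ Fin n) R) = LinearMap.id := by
  rw [mv, Matrix.map_one _ (map_zero _) (map_one _), Matrix.toLin'_one]

lemma om_eq (x y : (Fin n ⊕ Fin n) → K) :
    om n K x y = - (x ⬝ᵥ (Matrix.J (Fin n) K).mulVec y) := by
  rw [om_apply, Matrix.J]
  simp only [Matrix.fromBlocks_mulVec, dotProduct, Fintype.sum_sum_type, Sum.elim_inl,
    Sum.elim_inr, Matrix.zero_mulVec, Matrix.one_mulVec, Matrix.neg_mulVec, Pi.add_apply,
    Pi.neg_apply, Pi.zero_apply, Function.comp_apply, zero_add, add_zero]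
  rw [← Finset.sum_add_distrib, ← Finset.sum_neg_distrib]
  exact Finset.sum_congr rfl fun i _ => by ring

lemma symp_of_om {G : Matrix (Fin n ⊕ Fin n) (Fin n ⊕ Fin n) K}
    (h : ∀ x y, om n K (G.mulVec x) (G.mulVec y) = om n K x y) :
    G ∈ Matrix.symplecticGroup (Fin n) K := by
  rw [SymplecticGroup.mem_iff']
  have key : ∀ x y, x ⬝ᵥ (G.transpose * Matrix.J (Fin n) K * G).mulVec y =
      x ⬝ᵥ (Matrix.J (Fin n) K).mulVec y := by
    intro x y
    have h1 := h x y
    rw [om_eq, om_eq, neg_inj] at h1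
    rw [← h1, ← Matrix.mulVec_mulVec, ← Matrix.mulVec_mulVec, Matrix.dotProduct_mulVec,
      Matrix.vecMul_transpose]
  ext i j
  have := key (Pi.single i 1) (Pi.single j 1)
  simpa [Matrix.mulVec_single_one] using this

lemma om_of_symp {G : Matrix (Fin n ⊕ Fin n) (Fin n ⊕ Fin n) K}
    (hG : G ∈ Matrix.symplecticGroup (Fin n) K) (x y : (Fin n ⊕ Fin n) → K) :
    om n K (G.mulVec x) (G.mulVec y) = om n K x y := by
  rw [SymplecticGroup.mem_iff'] at hG
  rw [om_eq, om_eq, neg_inj]
  conv_rhs => rw [← hG]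
  rw [← Matrix.mulVec_mulVec, ← Matrix.mulVec_mulVec, Matrix.dotProduct_mulVec x,
    Matrix.vecMul_transpose]

omit [IsDedekindDomain R] [IsFractionRing R K] in
lemma mv_om {G : Matrix (Fin n ⊕ Fin n) (Fin n ⊕ Fin n) R}
    (hG : G ∈ Matrix.symplecticGroup (Fin n) R) (x y : (Fin n ⊕ Fin n) → K) :
    om n K (mv K G x) (mv K G y) = om n K x y := by
  have h1 : G.map (algebraMap R K) ∈ Matrix.symplecticGroup (Fin n) K :=
    SymplecticGroup.map_mem hG (algebraMap R K)
  rw [mv, Matrix.toLin'_apply, Matrix.toLin'_apply]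
  exact om_of_symp h1 x y

omit [IsDedekindDomain R] in
lemma mv_J_le (G : Matrix (Fin n ⊕ Fin n) (Fin n ⊕ Fin n) R) (x : (Fin n ⊕ Fin n) → K) :
    J R (mv K G x) ≤ J R x := by
  rw [J_le]
  intro i
  rw [mv, Matrix.toLin'_apply, Matrix.mulVec, dotProduct, ← FractionalIdeal.mem_coe]
  refine Submodule.sum_mem _ fun j _ => ?_
  rw [Matrix.map_apply, ← Algebra.smul_def]
  exact Submodule.smul_mem _ _ (mem_J x j)

/-- Two full adapted systems with the same contents differ by an integral symplectic matrix. -/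
theorem exists_symp (h : Adp R n v w) (h' : Adp R n v' w') (hJ : ∀ i < n, J R (v i) = J R (v' i)) :
    ∃ G ∈ Matrix.symplecticGroup (Fin n) R, ∀ i < n, mv K G (v i) = v' i := by
  let g : ((Fin n ⊕ Fin n) → K) →ₗ[K] ((Fin n ⊕ Fin n) → K) := (rec' n v' w').comp (crd n v w)
  have hom : ∀ x y, om n K (g x) (g y) = om n K x y := by
    intro x y
    change om n K (rec' n v' w' (crd n v w x)) (rec' n v' w' (crd n v w y)) = _
    rw [h'.om_rec_rec, ← h.om_rec_rec, h.rec_crd, h.rec_crd]
  have hint : ∀ x, J R (g x) ≤ J R x := by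
    intro x
    change J R (rec' n v' w' (crd n v w x)) ≤ _
    rw [rec'_apply]
    apply J_sum_le
    intro i _
    have hi := i.2
    have hne := J_ne (R := R) (h.ne hi)
    apply J_add_le
    · rw [crd_inl, J_smul, ← hJ i hi]
      have := (h.coef hi x).1
      rwa [J_smul] at this
    · rw [crd_inr, J_smul]
      calc spanSingleton R⁰ (om n K (v i) x) * J R (w' i) ≤
            (J R (v i) * J R x) * (J R (v i))⁻¹ := by
            gcongr
            · exact spanSingleton_le_iff_mem.2 (om_mem _ _)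
            · rw [hJ i hi]; exact h'.jw i hi
        _ = J R x := by rw [mul_comm (J R (v i)), mul_assoc, mul_inv_cancel₀ hne, mul_one]
  have hent : ∀ i j, ∃ t : R, algebraMap R K t = LinearMap.toMatrix' g i j := by
    intro i j
    have h1 : J R (Pi.single j (1 : K) : (Fin n ⊕ Fin n) → K) ≤ 1 := by
      rw [J_le]
      intro k
      rw [Pi.single_apply]
      split_ifs
      · exact one_mem_one _
      · exact FractionalIdeal.zero_mem _
    have h2 := J_le.1 ((hint (Pi.single j 1)).trans h1) i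
    rw [FractionalIdeal.mem_one_iff] at h2
    obtain ⟨t, ht⟩ := h2
    exact ⟨t, by rw [ht, LinearMap.toMatrix'_apply]⟩
  choose N hN using hent
  let G : Matrix (Fin n ⊕ Fin n) (Fin n ⊕ Fin n) R := Matrix.of N
  have hG : G.map (algebraMap R K) = LinearMap.toMatrix' g := by
    ext i j
    exact hN i j
  have hmv : mv K G = g := by
    rw [mv, hG, Matrix.toLin'_toMatrix']
  refine ⟨G, ?_, ?_⟩
  · have h1 : G.map (algebraMap R K) ∈ Matrix.symplecticGroup (Fin n) K := by
      apply symp_of_om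
      intro x y
      have h2 : ∀ x, (G.map (algebraMap R K)).mulVec x = g x := fun x => by
        rw [← hmv]; rfl
      rw [h2, h2]
      exact hom x y
    rw [SymplecticGroup.mem_iff] at h1 ⊢
    apply Matrix.map_injective (IsFractionRing.injective R K)
    change (G * Matrix.J (Fin n) R * G.transpose).map (algebraMap R K) =
      (Matrix.J (Fin n) R).map (algebraMap R K)
    rw [Matrix.map_mul, Matrix.map_mul, Matrix.map_J, Matrix.transpose_map]
    exact h1
  · intro i hi
    rw [hmv]
    change rec' n v' w' (crd n v w (v i)) = v' i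
    have : crd n v w (v i) = Pi.single (Sum.inl ⟨i, hi⟩) 1 := by
      ext j
      rcases j with j | j
      · rw [crd_inl, h.vw i hi j j.2, Pi.single_apply]
        by_cases hij : i = j
        · rw [if_pos hij, if_pos (congrArg Sum.inl (Fin.ext hij.symm))]
        · rw [if_neg hij, if_neg (fun h0 => hij (by
            have := Sum.inl_injective h0
            rw [this]))]
      · rw [crd_inr, h.vv j j.2 i hi, Pi.single_apply, if_neg (by simp)]
    rw [this, rec'_apply, Finset.sum_eq_single ⟨i, hi⟩]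
    · simp
    · intro b _ hb
      simp [hb]
    · simp

/-- Isotropic subspaces are spanned by adapted systems. -/
theorem exists_adp {V : Submodule K ((Fin n ⊕ Fin n) → K)}
    (hV : ∀ x ∈ V, ∀ y ∈ V, om n K x y = 0) :
    ∃ v w, Adp R (Module.finrank K V) v w ∧ V = spn (Module.finrank K V) v := by
  have key : ∀ m ≤ Module.finrank K V, ∃ v w, Adp R m v w ∧ ∀ i < m, v i ∈ V := by
    intro m
    induction m with
    | zero => intro _; exact ⟨fun _ => 0, fun _ => 0, ⟨by simp, by simp, by simp, by simp⟩, by simp⟩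
    | succ m ih =>
      intro hm
      obtain ⟨v, w, hA, hmem⟩ := ih (by omega)
      let φ : V →ₗ[K] (Fin m → K) := (perp m w).comp V.subtype
      have hge := finrank_ker_ge φ
      rw [Fintype.card_fin] at hge
      have hU0 : LinearMap.ker φ ≠ ⊥ := by
        intro h
        have h1 : Module.finrank K (LinearMap.ker φ) = 0 := by rw [h]; simp
        omega
      obtain ⟨x, hxU, hx0⟩ := Submodule.exists_mem_ne_zero_of_ne_bot hU0
      obtain ⟨y, hy⟩ := hA.extend (x := x.1) (fun h => hx0 (Subtype.ext h))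
        (fun i hi => hV _ x.2 _ (hmem i hi))
        (fun i hi => congrFun (LinearMap.mem_ker.1 hxU) ⟨i, hi⟩)
      refine ⟨_, _, hy, ?_⟩
      intro i hi
      rcases Nat.lt_succ_iff_lt_or_eq.1 hi with hi | rfl
      · rw [Function.update_of_ne hi.ne]; exact hmem i hi
      · rw [Function.update_self]; exact x.2
  obtain ⟨v, w, hA, hmem⟩ := key _ le_rfl
  refine ⟨v, w, hA, ?_⟩
  symm
  apply Submodule.eq_of_le_of_finrank_eq
  · rw [spn, Submodule.span_le]
    rintro _ ⟨i, rfl⟩
    exact hmem i i.2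
  · exact hA.finrank_spn

lemma exists_isSt {V : Submodule K ((Fin n ⊕ Fin n) → K)}
    (hV : ∀ x ∈ V, ∀ y ∈ V, om n K x y = 0) : ∃ c, IsSt R V c := by
  obtain ⟨v, w, hA, h⟩ := exists_adp (R := R) hV
  have := hA.isSt
  rw [← h] at this
  exact ⟨_, this⟩

lemma isotropic_le (R : Type*) [CommRing R] [IsDedekindDomain R] [Algebra R K]
    [IsFractionRing R K] {V : Submodule K ((Fin n ⊕ Fin n) → K)}
    (hV : ∀ x ∈ V, ∀ y ∈ V, om n K x y = 0) : Module.finrank K V ≤ n := by
  obtain ⟨v, w, hA, h⟩ := exists_adp (R := R) hV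
  exact hA.le

lemma IsSt.map {V : Submodule K ((Fin n ⊕ Fin n) → K)} {c : ClassGroup R} (h : IsSt R V c)
    {G H : Matrix (Fin n ⊕ Fin n) (Fin n ⊕ Fin n) R} (hGH : H * G = 1) :
    IsSt R (V.map (mv K G)) c := by
  obtain ⟨r, b, a, h1, h2⟩ := h
  have hinv : ∀ x, mv K H (mv K G x) = x := by
    intro x
    have := congrArg (fun f => f x) (mv_mul (K := K) H G)
    rw [hGH, mv_one] at this
    exact this.symm
  have hinj : Function.Injective (mv K G) := fun x y hxy => by
    rw [← hinv x, hxy, hinv]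
  let e := Submodule.equivMapOfInjective (mv K G) hinj V
  refine ⟨r, b.map e, a, ?_, h2⟩
  intro y
  obtain ⟨x, rfl⟩ := e.surjective y
  have h3 : (e x : (Fin n ⊕ Fin n) → K) = mv K G x := rfl
  have h4 : (b.map e).repr (e x) = b.repr x := by simp
  rw [h4, ← h1 x, int_iff_J, int_iff_J, h3]
  constructor
  · intro h5
    have := mv_J_le H (mv K G (x : (Fin n ⊕ Fin n) → K))
    rw [hinv] at this
    exact this.trans h5
  · intro h5
    exact (mv_J_le G _).trans h5

end

end Pool.Agent.R647.Chev
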