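import Pool.Agent.R647.Chev.Sp4
import Pool.Agent.R647.Chev.Quot

/-!
The quotient of the building of `Sp₂ₙ(K)` by `Sp₂ₙ(R)`.
-/

namespace Pool.Agent.R647.Chev

open scoped nonZeroDivisors
open FractionalIdeal

/-- The simplices of the building of `Sp₂ₙ(K)`: nonempty flags (totally ordered sets) of nonzero
totally isotropic subspaces of `K²ⁿ`. -/
def Flag (n : ℕ) (K : Type*) [Field K] : Type _ :=
  {F : Set (Submodule K ((Fin n ⊕ Fin n) → K)) // F.Nonempty ∧ IsChain (· ≤ ·) F ∧
    ∀ V ∈ F, V ≠ ⊥ ∧ ∀ x ∈ V, ∀ y ∈ V, om n K x y = 0}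

section

variable (R K : Type*) [CommRing R] [IsDedekindDomain R] [Field K] [Algebra R K]
  [IsFractionRing R K] (n : ℕ)

/-- Two flags are equivalent when a matrix in `Sp₂ₙ(R)` maps one to the other. -/
def spSetoid (R K : Type*) [CommRing R] [Field K] [Algebra R K] (n : ℕ) : Setoid (Flag n K) where
  r F F' := ∃ G ∈ Matrix.symplecticGroup (Fin n) R,
    F'.1 = (fun V => V.map (mv K G)) '' F.1
  iseqv := by
    refine ⟨fun F => ⟨1, Submonoid.one_mem _, ?_⟩, ?_, ?_⟩
    · rw [mv_one]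
      simp
    · rintro F F' ⟨G, hG, h⟩
      let g : Matrix.symplecticGroup (Fin n) R := ⟨G, hG⟩
      have h1 : (g⁻¹).1 * G = 1 := congrArg Subtype.val (inv_mul_cancel g)
      refine ⟨(g⁻¹).1, (g⁻¹).2, ?_⟩
      rw [h, Set.image_image]
      have h2 : ∀ V : Submodule K ((Fin n ⊕ Fin n) → K),
          (V.map (mv K G)).map (mv K (g⁻¹).1) = V := by
        intro V
        rw [← Submodule.map_comp, ← mv_mul, h1, mv_one, Submodule.map_id]
      simp only [h2, Set.image_id']
    · rintro F F' F'' ⟨G, hG, h⟩ ⟨H, hH, h'⟩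
      refine ⟨H * G, Submonoid.mul_mem _ hH hG, ?_⟩
      rw [h', h, Set.image_image]
      simp only [mv_mul, Submodule.map_comp]

/-- The cells of the quotient of the building of `Sp₂ₙ(K)` by `Sp₂ₙ(R)`. -/
def SpCells (R K : Type*) [CommRing R] [Field K] [Algebra R K] (n : ℕ) : Type _ :=
  Quotient (spSetoid R K n)

/-- The cell of a flag. -/
def spMk (R : Type*) {K : Type*} [CommRing R] [Field K] [Algebra R K] {n : ℕ} (F : Flag n K) :
    SpCells R K n := Quotient.mk (spSetoid R K n) F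

/-- The face relation in the quotient. -/
def spFace (R K : Type*) [CommRing R] [Field K] [Algebra R K] (n : ℕ) (c c' : SpCells R K n) :
    Prop :=
  ∃ F F' : Flag n K, spMk R F = c ∧ spMk R F' = c' ∧ F.1 ⊆ F'.1

/-- The face relation in the join of `n` copies of the discrete set `Ω`. -/
def joinFace (Ω : Type*) (n : ℕ) (f f' : JoinC Ω n) : Prop :=
  ∀ i ω, f.1 i = some ω → f'.1 i = some ω

variable {R K n}

open Classical in
/-- The Steinitz class. -/
noncomputable def st (R : Type*) {K : Type*} [CommRing R] [IsDedekindDomain R] [Field K]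
    [Algebra R K] [IsFractionRing R K] {n : ℕ} (V : Submodule K ((Fin n ⊕ Fin n) → K)) :
    ClassGroup R :=
  if h : ∃ c, IsSt R V c then h.choose else 1

lemma st_spec {V : Submodule K ((Fin n ⊕ Fin n) → K)} (hV : ∀ x ∈ V, ∀ y ∈ V, om n K x y = 0) :
    IsSt R V (st R V) := by
  have h := exists_isSt (R := R) hV
  rw [st, dif_pos h]
  exact h.choose_spec

lemma st_eq {V : Submodule K ((Fin n ⊕ Fin n) → K)} {c : ClassGroup R} (h : IsSt R V c) :
    st R V = c := by
  have h' : ∃ c, IsSt R V c := ⟨c, h⟩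
  rw [st, dif_pos h']
  exact h'.choose_spec.unique h

open Classical in
/-- Dimensions and classes of the members of a flag. -/
noncomputable def fdat (R : Type*) {K : Type*} [CommRing R] [IsDedekindDomain R] [Field K]
    [Algebra R K] [IsFractionRing R K] {n : ℕ} (F : Flag n K) (i : Fin n) :
    Option (ClassGroup R) :=
  if h : ∃ V ∈ F.1, Module.finrank K V = i + 1 then some (st R h.choose) else none

lemma flag_unique (F : Flag n K) {V V' : Submodule K ((Fin n ⊕ Fin n) → K)} (hV : V ∈ F.1)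
    (hV' : V' ∈ F.1) (h : Module.finrank K V = Module.finrank K V') : V = V' := by
  rcases eq_or_ne V V' with h0 | h0
  · exact h0
  rcases F.2.2.1 hV hV' h0 with h1 | h1
  · exact Submodule.eq_of_le_of_finrank_eq h1 h
  · exact (Submodule.eq_of_le_of_finrank_eq h1 h.symm).symm

lemma fdat_some (F : Flag n K) {V : Submodule K ((Fin n ⊕ Fin n) → K)} (hV : V ∈ F.1)
    {i : Fin n} (h : Module.finrank K V = i + 1) : fdat R F i = some (st R V) := by
  have h' : ∃ V ∈ F.1, Module.finrank K V = i + 1 := ⟨V, hV, h⟩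
  rw [fdat, dif_pos h']
  have h1 := h'.choose_spec
  rw [flag_unique F h1.1 hV (h1.2.trans h.symm)]

lemma fdat_iff (F : Flag n K) (i : Fin n) (c : ClassGroup R) :
    fdat R F i = some c ↔ ∃ V ∈ F.1, Module.finrank K V = i + 1 ∧ IsSt R V c := by
  constructor
  · intro h
    by_cases h' : ∃ V ∈ F.1, Module.finrank K V = i + 1
    · obtain ⟨V, hV, hi⟩ := h'
      rw [fdat_some F hV hi, Option.some_inj] at h
      exact ⟨V, hV, hi, h ▸ st_spec (F.2.2.2 V hV).2⟩
    · rw [fdat, dif_neg h'] at h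
      exact absurd h (by simp)
  · rintro ⟨V, hV, hi, hc⟩
    rw [fdat_some F hV hi, st_eq hc]

lemma fdat_ne_none (F : Flag n K) (i : Fin n) :
    fdat R F i ≠ none ↔ ∃ V ∈ F.1, Module.finrank K V = i + 1 := by
  constructor
  · intro h
    by_contra h'
    rw [fdat, dif_neg h'] at h
    exact h rfl
  · rintro ⟨V, hV, hi⟩
    rw [fdat_some F hV hi]; simp

/-- Index of the dimension of a member of a flag. -/
lemma flag_idx (R : Type*) [CommRing R] [IsDedekindDomain R] [Algebra R K]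
    [IsFractionRing R K] (F : Flag n K) {V : Submodule K ((Fin n ⊕ Fin n) → K)} (hV : V ∈ F.1) :
    ∃ i : Fin n, Module.finrank K V = i + 1 := by
  have h1 := isotropic_le R (F.2.2.2 V hV).2
  have h2 : Module.finrank K V ≠ 0 := by
    intro h0
    exact (F.2.2.2 V hV).1 (Submodule.finrank_eq_zero.1 h0)
  exact ⟨⟨Module.finrank K V - 1, by omega⟩, by simp; omega⟩

lemma fdat_ne (F : Flag n K) : fdat R F ≠ fun _ => none := by
  obtain ⟨V, hV⟩ := F.2.1
  obtain ⟨i, hi⟩ := flag_idx R F hV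
  intro h
  exact (fdat_ne_none F i).2 ⟨V, hV, hi⟩ (congrFun h i)

lemma fdat_rel {F F' : Flag n K} (h : (spSetoid R K n).r F F') : fdat R F = fdat R F' := by
  obtain ⟨G, hG, h⟩ := h
  let g : Matrix.symplecticGroup (Fin n) R := ⟨G, hG⟩
  have h1 : (g⁻¹).1 * G = 1 := congrArg Subtype.val (inv_mul_cancel g)
  have hinv : ∀ x, mv K (g⁻¹).1 (mv K G x) = x := by
    intro x
    have := congrArg (fun f => f x) (mv_mul (K := K) (g⁻¹).1 G)
    rw [h1, mv_one] at this
    exact this.symm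
  have hinj : Function.Injective (mv K G) := fun x y hxy => by
    rw [← hinv x, hxy, hinv]
  have hfr : ∀ V : Submodule K ((Fin n ⊕ Fin n) → K),
      Module.finrank K (V.map (mv K G)) = Module.finrank K V := fun V =>
    (LinearEquiv.finrank_eq (Submodule.equivMapOfInjective (mv K G) hinj V)).symm
  funext i
  apply Option.ext
  intro c
  rw [fdat_iff, fdat_iff]
  constructor
  · rintro ⟨V, hV, hi, hc⟩
    exact ⟨V.map (mv K G), by rw [h]; exact ⟨V, hV, rfl⟩, by rw [hfr, hi], hc.map h1⟩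
  · rintro ⟨V', hV', hi, hc⟩
    rw [h] at hV'
    obtain ⟨V, hV, rfl⟩ := hV'
    have h2 := st_spec (R := R) (F.2.2.2 V hV).2
    have h3 := (h2.map h1).unique hc
    exact ⟨V, hV, by rw [← hfr, hi], h3 ▸ h2⟩

/-- Fractional ideals of prescribed classes. -/
lemma exists_contents (f : ℕ → ClassGroup R) :
    ∃ C : ℕ → FractionalIdeal R⁰ K, (∀ j, C j ≠ 0) ∧
      ∀ k, ∏ j ∈ Finset.range (k + 1), (cl (C j))⁻¹ = f k := by
  have h1 : ∀ c : ClassGroup R, ∃ I : FractionalIdeal R⁰ K, I ≠ 0 ∧ cl I = c := by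
    intro c
    obtain ⟨v, hv, h⟩ := cl_surj (K := K) c
    exact ⟨_, cont_ne hv, h⟩
  choose I hI0 hI using h1
  let d : ℕ → ClassGroup R := fun k => match k with
    | 0 => (f 0)⁻¹
    | k + 1 => f k * (f (k + 1))⁻¹
  refine ⟨fun j => I (d j), fun j => hI0 _, ?_⟩
  intro k
  induction k with
  | zero => simp [hI, d]
  | succ k ih =>
    rw [Finset.prod_range_succ, ih, hI]
    simp [d]

lemma rel_of_fdat {F F' : Flag n K} (h : fdat R F = fdat R F') : (spSetoid R K n).r F F' := by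
  obtain ⟨C, hC0, hC⟩ := exists_contents (K := K)
    (fun k => if hk : k < n then (fdat R F ⟨k, hk⟩).getD 1 else 1)
  have hst : ∀ F'' : Flag n K, fdat R F = fdat R F'' → ∀ V ∈ F''.1,
      IsSt R V (∏ j ∈ Finset.range (Module.finrank K V), (cl (C j))⁻¹) := by
    intro F'' h'' V hV
    obtain ⟨i, hi⟩ := flag_idx R F'' hV
    rw [hi, hC, dif_pos i.2]
    have h1 : fdat R F ⟨i, i.2⟩ = some (st R V) := by
      rw [h'']
      exact fdat_some F'' hV hi
    rw [h1]
    exact st_spec (F''.2.2.2 V hV).2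
  obtain ⟨v, w, hA, hJ, h1, -⟩ := adapted F.1 F.2.2.1 (fun V hV => (F.2.2.2 V hV).2) C hC0
    (hst F rfl) n le_rfl
  obtain ⟨v', w', hA', hJ', h1', -⟩ := adapted F'.1 F'.2.2.1 (fun V hV => (F'.2.2.2 V hV).2) C hC0
    (hst F' h) n le_rfl
  obtain ⟨G, hG, hGv⟩ := exists_symp hA hA' (fun i hi => by rw [hJ i hi, hJ' i hi])
  have hmap : ∀ k ≤ n, (spn k v).map (mv K G) = spn k v' := by
    intro k hk
    rw [spn, Submodule.map_span, ← Set.range_comp]
    congr 2
    ext i
    simp only [Function.comp_apply]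
    rw [hGv i (by omega)]
  have key : ∀ F₁ F₂ : Flag n K, ∀ v₁ v₂ : ℕ → (Fin n ⊕ Fin n) → K, fdat R F₁ = fdat R F₂ →
      (∀ V ∈ F₁.1, V = spn (Module.finrank K V) v₁) →
      (∀ V ∈ F₂.1, V = spn (Module.finrank K V) v₂) →
      ∀ V ∈ F₁.1, spn (Module.finrank K V) v₂ ∈ F₂.1 := by
    intro F₁ F₂ v₁ v₂ h12 e1 e2 V hV
    obtain ⟨i, hi⟩ := flag_idx R F₁ hV
    obtain ⟨V₂, hV₂, hi₂⟩ := (fdat_ne_none F₂ i).1 (h12 ▸ (fdat_ne_none F₁ i).2 ⟨V, hV, hi⟩)
    rw [hi, ← hi₂, ← e2 V₂ hV₂]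
    exact hV₂
  have e1 : ∀ V ∈ F.1, V = spn (Module.finrank K V) v := fun V hV =>
    h1 V hV (isotropic_le R (F.2.2.2 V hV).2)
  have e2 : ∀ V ∈ F'.1, V = spn (Module.finrank K V) v' := fun V hV =>
    h1' V hV (isotropic_le R (F'.2.2.2 V hV).2)
  refine ⟨G, hG, ?_⟩
  ext V'
  constructor
  · intro hV'
    have h2 := key F' F v' v h.symm e2 e1 V' hV'
    refine ⟨_, h2, ?_⟩
    change (spn (Module.finrank K V') v).map (mv K G) = V'
    rw [hmap _ (isotropic_le R (F'.2.2.2 V' hV').2), ← e2 V' hV']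
  · rintro ⟨V, hV, rfl⟩
    change V.map (mv K G) ∈ F'.1
    rw [e1 V hV, hmap _ (isotropic_le R (F.2.2.2 V hV).2)]
    exact key F F' v v' h e1 e2 V hV

lemma spn_mono {v : ℕ → (Fin n ⊕ Fin n) → K} {k l : ℕ} (h : k ≤ l) : spn k v ≤ spn l v := by
  rw [spn, Submodule.span_le]
  rintro _ ⟨i, rfl⟩
  exact Submodule.subset_span ⟨⟨i, by omega⟩, rfl⟩

lemma exists_flag (f : JoinC (ClassGroup R) n) : ∃ F : Flag n K, fdat R F = f.1 := by
  obtain ⟨C, hC0, hC⟩ := exists_contents (K := K)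
    (fun k => if hk : k < n then (f.1 ⟨k, hk⟩).getD 1 else 1)
  obtain ⟨v, w, hA, hJ, -, -⟩ := adapted (K := K) (n := n) ∅ (by simp [IsChain]) (by simp) C hC0
    (by simp) n le_rfl
  have hst : ∀ i : Fin n, IsSt R (spn (i + 1) v) ((f.1 i).getD 1) := by
    intro i
    have h1 := (hA.restrict (show (i : ℕ) + 1 ≤ n from i.2)).isSt
    have h2 : ∏ j ∈ Finset.range ((i : ℕ) + 1), (cl (J R (v j)))⁻¹ = (f.1 i).getD 1 := by
      have h3 := hC i
      rw [dif_pos i.2] at h3
      rw [← h3]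
      refine Finset.prod_congr rfl fun j hj => ?_
      rw [hJ j (by have := Finset.mem_range.1 hj; omega)]
    rwa [h2] at h1
  have hfr : ∀ i : Fin n, Module.finrank K (spn ((i : ℕ) + 1) v) = i + 1 := fun i =>
    (hA.restrict (show (i : ℕ) + 1 ≤ n from i.2)).finrank_spn
  let F : Flag n K := ⟨{V | ∃ i : Fin n, f.1 i ≠ none ∧ V = spn ((i : ℕ) + 1) v}, ?_, ?_, ?_⟩
  · refine ⟨F, ?_⟩
    funext i
    apply Option.ext
    intro c
    rw [fdat_iff]
    constructor
    · rintro ⟨V, ⟨j, hj, rfl⟩, hi, hc⟩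
      rw [hfr] at hi
      have hij : j = i := Fin.ext (by omega)
      subst hij
      have h3 := (hst j).unique hc
      cases hfj : f.1 j with
      | none => exact absurd hfj hj
      | some d => rw [hfj] at h3; rw [← h3]; rfl
    · intro h
      refine ⟨spn ((i : ℕ) + 1) v, ⟨i, by rw [h]; simp, rfl⟩, hfr i, ?_⟩
      have := hst i
      rw [h] at this
      exact this
  · by_contra hcon
    apply f.2
    funext i
    by_contra hi
    exact hcon ⟨_, i, hi, rfl⟩
  · rintro _ ⟨i, _, rfl⟩ _ ⟨j, _, rfl⟩ _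
    rcases le_total (i : ℕ) j with h | h
    · left; exact spn_mono (by omega)
    · right; exact spn_mono (by omega)
  · rintro _ ⟨i, _, rfl⟩
    refine ⟨?_, (hA.restrict (show (i : ℕ) + 1 ≤ n from i.2)).isotropic⟩
    intro h0
    have := hfr i
    rw [h0] at this
    simp at this

/-- The map to the join. -/
noncomputable def spToJoin (R K : Type*) [CommRing R] [IsDedekindDomain R] [Field K] [Algebra R K]
    [IsFractionRing R K] (n : ℕ) (c : SpCells R K n) : JoinC (ClassGroup R) n :=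
  Quotient.lift (s := spSetoid R K n) (fun F => (⟨fdat R F, fdat_ne F⟩ : JoinC (ClassGroup R) n))
    (fun _ _ h => Subtype.ext (fdat_rel h)) c

theorem sp_join : ∃ e : spFace R K n ≃r joinFace (ClassGroup R) n,
    ∀ (F : Flag n K) (i : Fin n) (c : ClassGroup R),
      (e (spMk R F)).1 i = some c ↔ ∃ V ∈ F.1, Module.finrank K V = i + 1 ∧ IsSt R V c := by
  have hinj : Function.Injective (spToJoin R K n) := by
    intro c c'
    induction c using Quotient.inductionOn with | _ F =>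
    induction c' using Quotient.inductionOn with | _ F' =>
    intro h
    exact Quotient.sound (s := spSetoid R K n) (rel_of_fdat (congrArg Subtype.val h))
  have hsurj : Function.Surjective (spToJoin R K n) := by
    intro f
    obtain ⟨F, hF⟩ := exists_flag (K := K) f
    exact ⟨spMk R F, Subtype.ext hF⟩
  refine ⟨⟨Equiv.ofBijective _ ⟨hinj, hsurj⟩, ?_⟩, fun F i c => fdat_iff F i c⟩
  intro c c'
  change joinFace _ n (spToJoin R K n c) (spToJoin R K n c') ↔ spFace R K n c c'
  constructor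
  · induction c using Quotient.inductionOn with | _ F =>
    induction c' using Quotient.inductionOn with | _ F' =>
    intro h
    have hle : ∀ i ω, fdat R F i = some ω → fdat R F' i = some ω := h
    let F₀ : Flag n K := ⟨{V | V ∈ F'.1 ∧ ∃ V' ∈ F.1, Module.finrank K V' = Module.finrank K V},
      ?_, ?_, ?_⟩
    · have hdat : fdat R F₀ = fdat R F := by
        funext i
        apply Option.ext
        intro c
        rw [fdat_iff]
        constructor
        · rintro ⟨V, ⟨hV, V', hV', hVV⟩, hi, hc⟩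
          have h1 := fdat_some (R := R) F hV' (hVV.trans hi)
          have h2 := hle _ _ h1
          have h3 := (fdat_iff F' i c).2 ⟨V, hV, hi, hc⟩
          rw [h1, ← h2, h3]
        · intro hc
          obtain ⟨V', hV', hi', hc'⟩ := (fdat_iff F i c).1 hc
          obtain ⟨V, hV, hi, hc2⟩ := (fdat_iff F' i c).1 (hle _ _ hc)
          exact ⟨V, ⟨hV, V', hV', by rw [hi', hi]⟩, hi, hc2⟩
      exact ⟨F₀, F', Quotient.sound (s := spSetoid R K n) (rel_of_fdat hdat), rfl,
        fun V hV => hV.1⟩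
    · obtain ⟨V', hV'⟩ := F.2.1
      obtain ⟨i, hi⟩ := flag_idx R F hV'
      obtain ⟨V, hV, hi', -⟩ := (fdat_iff F' i _).1 (hle _ _ (fdat_some (R := R) F hV' hi))
      exact ⟨V, hV, V', hV', by rw [hi, hi']⟩
    · exact F'.2.2.1.mono fun V hV => hV.1
    · exact fun V hV => F'.2.2.2 V hV.1
  · rintro ⟨F, F', rfl, rfl, hsub⟩ i ω h
    obtain ⟨V, hV, hi, hc⟩ := (fdat_iff F i ω).1 h
    exact (fdat_iff F' i ω).2 ⟨V, hsub hV, hi, hc⟩

end

end Pool.Agent.R647.Chev
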