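import Mathlib

/-!
The field `ℚ(√-5)` has even class number.
-/

namespace Pool.Agent.R647.Chev

open scoped nonZeroDivisors NumberField

instance fact5 : Fact (∀ r : ℚ, r ^ 2 ≠ (-5 : ℚ) + 0 * r) :=
  ⟨fun r h => by nlinarith [sq_nonneg r]⟩

/-- The field `ℚ(√-5)`. -/
abbrev K5 : Type := QuadraticAlgebra ℚ (-5) 0

noncomputable instance : Module.Finite ℚ K5 :=
  Module.Finite.of_surjective
    ({ toFun := fun p : ℚ × ℚ => (⟨p.1, p.2⟩ : K5)
       map_add' := fun p q => by ext <;> simp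
       map_smul' := fun c p => by ext <;> simp } : (ℚ × ℚ) →ₗ[ℚ] K5)
    (fun x => ⟨(x.re, x.im), rfl⟩)

instance : NumberField K5 where
  to_charZero := inferInstance
  to_finiteDimensional := inferInstance

/-- The element `√-5`. -/
def al : K5 := ⟨0, 1⟩

lemma am (q : ℚ) : algebraMap ℚ K5 q = ⟨q, 0⟩ := by
  rw [eq_ratCast]; rfl

lemma al_sq : al * al = -5 := by
  have h5 : (5 : K5) = ⟨5, 0⟩ := by
    have := am 5
    simpa using this
  rw [h5]
  ext
  · simp [al]
  · simp [al]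

lemma al_int : IsIntegral ℤ al := by
  refine ⟨Polynomial.X ^ 2 + Polynomial.C 5, Polynomial.monic_X_pow_add_C 5 two_ne_zero, ?_⟩
  simp only [Polynomial.eval₂_add, Polynomial.eval₂_pow, Polynomial.eval₂_X,
    Polynomial.eval₂_C]
  rw [pow_two, al_sq]
  simp

lemma int_of_isIntegral {q : ℚ} (h : IsIntegral ℤ (algebraMap ℚ K5 q)) : ∃ m : ℤ, q = m := by
  have h1 : IsIntegral ℤ q := by
    rwa [isIntegral_algebraMap_iff (algebraMap ℚ K5).injective] at h
  obtain ⟨m, hm⟩ := IsIntegrallyClosed.isIntegral_iff.1 h1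
  exact ⟨m, by rw [← hm]; simp⟩

/-- Conjugation as an algebra homomorphism. -/
def starHom : K5 →+* K5 where
  toFun := star
  map_one' := star_one _
  map_mul' x y := by rw [star_mul, mul_comm]
  map_zero' := star_zero _
  map_add' := star_add

lemma star_int {x : K5} (h : IsIntegral ℤ x) : IsIntegral ℤ (star x) := by
  have : IsIntegral ℤ (starHom.toIntAlgHom x) := h.map starHom.toIntAlgHom
  exact this

lemma norm_int {x : K5} (h : IsIntegral ℤ x) : ∃ m : ℤ, QuadraticAlgebra.norm x = m := by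
  apply int_of_isIntegral
  have h1 : algebraMap ℚ K5 (QuadraticAlgebra.norm x) = x * star x := by
    rw [am, QuadraticAlgebra.norm_def]
    ext
    · simp
    · simp; ring
  rw [h1]
  exact h.mul (star_int h)

lemma trace_int {x : K5} (h : IsIntegral ℤ x) : ∃ m : ℤ, 2 * x.re = m := by
  apply int_of_isIntegral
  have : algebraMap ℚ K5 (2 * x.re) = x + star x := by
    rw [am]
    ext
    · simp; ring
    · simp
  rw [this]
  exact h.add (star_int h)

lemma norm_nonneg' (x : K5) : 0 ≤ QuadraticAlgebra.norm x := by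
  rw [QuadraticAlgebra.norm_def]
  nlinarith [sq_nonneg x.re, sq_nonneg x.im]

lemma no_norm_two {x : K5} (h : IsIntegral ℤ x) : QuadraticAlgebra.norm x ≠ 2 := by
  intro h2
  obtain ⟨t, ht⟩ := trace_int h
  rw [QuadraticAlgebra.norm_def] at h2
  have h3 : (10 * x.im) ^ 2 = 40 - 5 * (t : ℚ) ^ 2 := by
    rw [← ht]; linarith
  have h4 : IsIntegral ℤ (10 * x.im) := by
    refine ⟨Polynomial.X ^ 2 + Polynomial.C (-(40 - 5 * t ^ 2)),
      Polynomial.monic_X_pow_add_C _ two_ne_zero, ?_⟩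
    simp only [Polynomial.eval₂_add, Polynomial.eval₂_pow, Polynomial.eval₂_X,
      Polynomial.eval₂_C]
    rw [h3]
    push_cast
    simp
  obtain ⟨s, hs⟩ := IsIntegrallyClosed.isIntegral_iff.1 h4
  have hs' : (10 * x.im) = (s : ℚ) := by rw [← hs]; simp
  rw [hs'] at h3
  have h5 : s ^ 2 = 40 - 5 * t ^ 2 := by exact_mod_cast h3
  have ht1 : t ≤ 2 := by nlinarith [sq_nonneg s]
  have ht2 : -2 ≤ t := by nlinarith [sq_nonneg s]
  have hs1 : s ≤ 6 := by nlinarith [sq_nonneg t]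
  have hs2 : -6 ≤ s := by nlinarith [sq_nonneg t]
  interval_cases t <;> interval_cases s <;> omega

/-- `√-5` in the ring of integers. -/
def alO : 𝓞 K5 := ⟨al, al_int⟩

lemma alO_sq : alO * alO = -5 := by
  apply NumberField.RingOfIntegers.ext
  change al * al = algebraMap (𝓞 K5) K5 (-5)
  rw [al_sq, map_neg, map_ofNat]

lemma sq_eq : Ideal.span {(2 : 𝓞 K5), 1 + alO} * Ideal.span {(2 : 𝓞 K5), 1 + alO} =
    Ideal.span {2} := by
  rw [Ideal.span_pair_mul_span_pair]
  apply le_antisymm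
  · rw [Ideal.span_le]
    rintro x (rfl | rfl | rfl | hx)
    · exact Ideal.mem_span_singleton'.2 ⟨2, by ring⟩
    · exact Ideal.mem_span_singleton'.2 ⟨1 + alO, by ring⟩
    · exact Ideal.mem_span_singleton'.2 ⟨1 + alO, by ring⟩
    · rw [Set.mem_singleton_iff] at hx
      rw [hx]
      exact Ideal.mem_span_singleton'.2 ⟨-2 + alO, by linear_combination -alO_sq⟩
  · rw [Ideal.span_singleton_le_iff_mem]
    have h1 : (2 : 𝓞 K5) * 2 ∈ Ideal.span {(2 : 𝓞 K5) * 2, 2 * (1 + alO), (1 + alO) * 2,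
      (1 + alO) * (1 + alO)} := Ideal.subset_span (by simp)
    have h2 : (2 : 𝓞 K5) * (1 + alO) ∈ Ideal.span {(2 : 𝓞 K5) * 2, 2 * (1 + alO),
      (1 + alO) * 2, (1 + alO) * (1 + alO)} := Ideal.subset_span (by simp)
    have h3 : (1 + alO) * (1 + alO) ∈ Ideal.span {(2 : 𝓞 K5) * 2, 2 * (1 + alO),
      (1 + alO) * 2, (1 + alO) * (1 + alO)} := Ideal.subset_span (by simp)
    have h4 := Ideal.sub_mem _ (Ideal.sub_mem _ h2 h3) h1
    have h5 : 2 * (1 + alO) - (1 + alO) * (1 + alO) - 2 * 2 = 2 := by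
      linear_combination -alO_sq
    rwa [h5] at h4

lemma two_ne : (2 : 𝓞 K5) ≠ 0 := two_ne_zero

lemma not_princ : ¬ (Ideal.span {(2 : 𝓞 K5), 1 + alO}).IsPrincipal := by
  rintro ⟨b, hb⟩
  have hb' : Ideal.span {(2 : 𝓞 K5), 1 + alO} = Ideal.span {b} := hb
  have h1 := sq_eq
  rw [hb', Ideal.span_singleton_mul_span_singleton, Ideal.span_singleton_eq_span_singleton] at h1
  obtain ⟨u, hu⟩ := h1
  have h2 : (b : K5) * b * (u.1 : K5) = 2 := by
    have := congrArg (algebraMap (𝓞 K5) K5) hu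
    rw [map_mul, map_mul, map_ofNat] at this
    exact this
  have h3 := congrArg QuadraticAlgebra.norm h2
  rw [map_mul, map_mul] at h3
  have h4 : QuadraticAlgebra.norm (2 : K5) = 4 := by
    have : (2 : K5) = ((2 : ℕ) : K5) := by norm_num
    rw [this, QuadraticAlgebra.norm_natCast]; norm_num
  rw [h4] at h3
  obtain ⟨m, hm⟩ := norm_int (x := (b : K5)) b.2
  obtain ⟨k, hk⟩ := norm_int (x := (u.1 : K5)) u.1.2
  obtain ⟨l, hl⟩ := norm_int (x := ((u⁻¹).1 : K5)) (u⁻¹).1.2
  have h5 : QuadraticAlgebra.norm (u.1 : K5) * QuadraticAlgebra.norm ((u⁻¹).1 : K5) = 1 := by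
    rw [← map_mul, ← map_one QuadraticAlgebra.norm]
    congr 1
    have : u.1 * (u⁻¹).1 = 1 := by rw [← Units.val_mul, mul_inv_cancel, Units.val_one]
    have := congrArg (algebraMap (𝓞 K5) K5) this
    rw [map_mul, map_one] at this
    exact this
  rw [hk, hl] at h5
  have h6 : k * l = 1 := by exact_mod_cast h5
  have h7 : 0 ≤ k := by
    have := norm_nonneg' (u.1 : K5)
    rw [hk] at this; exact_mod_cast this
  have h8 : k = 1 := by
    rcases Int.isUnit_iff.1 (IsUnit.of_mul_eq_one _ h6) with h | h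
    · exact h
    · omega
  have h9 : 0 ≤ m := by
    have := norm_nonneg' (b : K5)
    rw [hm] at this; exact_mod_cast this
  rw [hm, hk, h8] at h3
  have h10 : m * m = 4 := by
    have : (m : ℚ) * m * (1 : ℤ) = 4 := h3
    push_cast at this
    rw [mul_one] at this
    exact_mod_cast this
  have h11 : m = 2 := by nlinarith
  exact no_norm_two (x := (b : K5)) b.2 (by rw [hm, h11]; norm_num)

theorem even_class : ¬ Odd (NumberField.classNumber K5) := by
  rw [Nat.not_odd_iff_even, even_iff_two_dvd]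
  have hne : Ideal.span {(2 : 𝓞 K5), 1 + alO} ≠ ⊥ := by
    intro h
    have : (2 : 𝓞 K5) ∈ Ideal.span {(2 : 𝓞 K5), 1 + alO} := Ideal.subset_span (by simp)
    rw [h] at this
    rw [Ideal.mem_bot] at this
    exact two_ne this
  let I : (Ideal (𝓞 K5))⁰ := ⟨_, mem_nonZeroDivisors_iff_ne_zero.2 hne⟩
  have h1 : ClassGroup.mk0 I ≠ 1 := by
    intro h
    exact not_princ ((ClassGroup.mk0_eq_one_iff I.2).1 h)
  have h2 : ClassGroup.mk0 I ^ 2 = 1 := by
    rw [pow_two, ← map_mul]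
    have h3 : (I * I : (Ideal (𝓞 K5))⁰) = ⟨Ideal.span {2}, mem_nonZeroDivisors_iff_ne_zero.2
      (by simp)⟩ := Subtype.ext sq_eq
    rw [h3]
    exact (ClassGroup.mk0_eq_one_iff _).2 ⟨2, rfl⟩
  have h3 : orderOf (ClassGroup.mk0 I) = 2 := orderOf_eq_prime h2 h1
  rw [NumberField.classNumber, ← h3]
  exact orderOf_dvd_card

end Pool.Agent.R647.Chev
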